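import Mathlib

/-!
# Definitions for the cross-characteristic restriction problem (type `A`)

* `pslMap n k K : PSL_n(k) →* PSL_n(K)` : the standard embedding induced by the inclusion
  `k ⊆ K` of fields;
* `IsCompositionFactor ρ σ` : the irreducible representation `σ` is a composition factor of `ρ`.
-/

namespace Pool.Agent.Lib.MP_467141_al

open Matrix

/-- The homomorphism `SL_n(k) / Z → SL_n(K) / Z` induced by a field extension `k ⊆ K`
(apply the inclusion `k → K` to the matrix entries). -/
noncomputable def pslMap (n : ℕ) (k K : Type*) [Field k] [Field K] [Algebra k K] :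
    ProjectiveSpecialLinearGroup (Fin n) k →* ProjectiveSpecialLinearGroup (Fin n) K :=
  QuotientGroup.map (Subgroup.center (Matrix.SpecialLinearGroup (Fin n) k))
    (Subgroup.center (Matrix.SpecialLinearGroup (Fin n) K))
    (Matrix.SpecialLinearGroup.map (algebraMap k K)) (by
      intro g hg
      rw [Matrix.SpecialLinearGroup.mem_center_iff] at hg
      obtain ⟨r, hr, hg⟩ := hg
      rw [Subgroup.mem_comap, Matrix.SpecialLinearGroup.mem_center_iff]
      refine ⟨algebraMap k K r, by rw [← map_pow, hr, map_one], ?_⟩
      rw [Matrix.SpecialLinearGroup.map_apply_coe, ← hg]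
      ext i j
      simp [Matrix.diagonal_apply, apply_ite (algebraMap k K)])

/-- `σ` is (isomorphic to) a composition factor of the representation `ρ`: it is irreducible, and
there are subrepresentations `B ≤ A` of `ρ` with `A / B ≅ σ`; the isomorphism is given as a
surjective intertwining map `f : A → σ` with kernel `B`. -/
def IsCompositionFactor {F H V W : Type*} [Field F] [Group H] [AddCommGroup V] [Module F V]
    [AddCommGroup W] [Module F W] (ρ : Representation F H V) (σ : Representation F H W) : Prop :=
  σ.IsIrreducible ∧ ∃ (A B : Subrepresentation ρ) (f : A.toRepresentation.IntertwiningMap σ),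
    B ≤ A ∧ Function.Surjective f ∧ ∀ x : A.toSubmodule, f x = 0 ↔ (x : V) ∈ B

end Pool.Agent.Lib.MP_467141_al
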