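import Pool.Agent.Lib.MP_467141_al.LI

/-!
# The abstract linear independence argument

`R : G →* 𝓐` is a homomorphism from a group to an algebra over a field with a nontrivial
additive character of `K`; `um`, `up` are opposite unipotent radicals which are `K`-vector
spaces, scaled by a one parameter torus `t` in opposite directions.
-/

namespace Pool.Agent.Lib.MP_467141_al

open Finset

section idem

variable {K : Type*} [Field K] [Fintype K] [DecidableEq K] {p : ℕ} [Fact p.Prime]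
  [Algebra (ZMod p) K] {F' : Type*} [Field F'] {G : Type*} [Group G]
  {𝓐 : Type*} [Ring 𝓐] [Algebra F' 𝓐]

omit [Fintype K] [DecidableEq K] in
lemma char_primitive (χ : AddChar (ZMod p) F') (hχ : χ ≠ 1) (τ : K →+ ZMod p) (hτ : τ ≠ 0) :
    (χ.compAddMonoidHom τ).IsPrimitive := by
  apply AddChar.IsPrimitive.of_ne_one
  intro h
  apply hχ
  have : ∃ x, τ x ≠ 0 := by
    by_contra hcon
    push Not at hcon
    exact hτ (AddMonoidHom.ext hcon)
  obtain ⟨x, hx⟩ := this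
  ext y
  have h1 := DFunLike.congr_fun h ((y * (τ x)⁻¹) • x)
  rw [AddChar.compAddMonoidHom_apply, ZMod.map_smul, smul_eq_mul, mul_assoc,
    inv_mul_cancel₀ hx, mul_one] at h1
  simpa using h1

variable {κ : Type*} [Fintype κ] [DecidableEq κ]

/-- (unnormalised) projection to the `b`-isotypic part for the abelian group `U (κ → K)`. -/
noncomputable def E (ψ : AddChar K F') (R : G →* 𝓐) (U : (κ → K) → G) (b : κ → K) : 𝓐 :=
  ∑ w : κ → K, ψ (-(b ⬝ᵥ w)) • R (U w)

lemma R_mul_E (ψ : AddChar K F') (R : G →* 𝓐) (U : (κ → K) → G)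
    (hU : ∀ v w, U (v + w) = U v * U w) (b v : κ → K) :
    R (U v) * E ψ R U b = ψ (b ⬝ᵥ v) • E ψ R U b := by
  unfold E
  rw [Finset.mul_sum, Finset.smul_sum]
  refine Fintype.sum_equiv (Equiv.addLeft v) _ _ fun w => ?_
  rw [mul_smul_comm, ← map_mul, ← hU, Equiv.coe_addLeft, smul_smul, ← AddChar.map_add_eq_mul]
  congr 2
  rw [dotProduct_add]
  ring

lemma E_mul_R (ψ : AddChar K F') (R : G →* 𝓐) (U : (κ → K) → G)
    (hU : ∀ v w, U (v + w) = U v * U w) (b v : κ → K) :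
    E ψ R U b * R (U v) = ψ (b ⬝ᵥ v) • E ψ R U b := by
  unfold E
  rw [Finset.sum_mul, Finset.smul_sum]
  refine Fintype.sum_equiv (Equiv.addRight v) _ _ fun w => ?_
  rw [smul_mul_assoc, ← map_mul, ← hU, Equiv.coe_addRight, smul_smul, ← AddChar.map_add_eq_mul]
  congr 2
  rw [dotProduct_add]
  ring

lemma sum_char (ψ : AddChar K F') (hψ : ψ.IsPrimitive) (w : κ → K) :
    ∑ b : κ → K, ψ (-(b ⬝ᵥ w)) = if w = 0 then (Fintype.card (κ → K) : F') else 0 := by
  split_ifs with h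
  · subst h
    simp [Finset.card_univ]
  · have : ∃ j, w j ≠ 0 := by
      by_contra hcon
      push Not at hcon
      exact h (funext hcon)
    obtain ⟨j, hj⟩ := this
    let Ψ : AddChar (κ → K) F' :=
      { toFun := fun b => ψ (-(b ⬝ᵥ w))
        map_zero_eq_one' := by simp
        map_add_eq_mul' := by
          intro a b
          rw [← AddChar.map_add_eq_mul, add_dotProduct, neg_add] }
    have hΨ : Ψ ≠ 1 := by
      intro h1
      apply hψ one_ne_zero
      ext y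
      have := DFunLike.congr_fun h1 (Pi.single j (-(y * (w j)⁻¹)))
      change ψ (-(Pi.single j (-(y * (w j)⁻¹)) ⬝ᵥ w)) = 1 at this
      rw [single_dotProduct, neg_mul, neg_neg, mul_assoc, inv_mul_cancel₀ hj, mul_one] at this
      simpa using this
    exact AddChar.sum_eq_zero_of_ne_one hΨ

lemma sum_E (ψ : AddChar K F') (hψ : ψ.IsPrimitive) (R : G →* 𝓐) (U : (κ → K) → G)
    (hU : ∀ v w, U (v + w) = U v * U w) :
    ∑ b : κ → K, E ψ R U b = (Fintype.card (κ → K) : F') • (1 : 𝓐) := by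
  unfold E
  rw [Finset.sum_comm]
  simp_rw [← Finset.sum_smul]
  simp_rw [sum_char ψ hψ]
  have h1 : U 0 = 1 := by
    have := hU 0 0
    rw [add_zero] at this
    exact (mul_eq_left.1 this.symm)
  rw [Finset.sum_eq_single 0]
  · rw [if_pos rfl, h1, map_one]
  · intro w _ hw
    rw [if_neg hw, zero_smul]
  · intro h
    exact absurd (Finset.mem_univ _) h

lemma card_ne_zero (hp : (p : F') ≠ 0) : (Fintype.card (κ → K) : F') ≠ 0 := by
  rw [Module.card_eq_pow_finrank (K := ZMod p) (V := κ → K), ZMod.card]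
  push_cast
  exact pow_ne_zero _ hp

lemma exists_E_ne_zero (ψ : AddChar K F') (hψ : ψ.IsPrimitive) (hp : (p : F') ≠ 0)
    (R : G →* 𝓐) (U : (κ → K) → G)
    (hU : ∀ v w, U (v + w) = U v * U w) (e : 𝓐) (he : e ≠ 0) :
    ∃ b, e * E ψ R U b ≠ 0 := by
  by_contra hcon
  push Not at hcon
  have h1 : e * ∑ b : κ → K, E ψ R U b = 0 := by
    rw [Finset.mul_sum]
    exact Finset.sum_eq_zero fun b _ => hcon b
  rw [sum_E ψ hψ R U hU, mul_smul_comm, mul_one] at h1
  exact he ((smul_eq_zero.1 h1).resolve_left (card_ne_zero (p := p) hp))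

/-- The abstract argument. -/
theorem abstract_main (χ : AddChar (ZMod p) F') (hχ : χ ≠ 1) (hp : (p : F') ≠ 0)
    (τ : K →+ ZMod p) (hτ : τ ≠ 0) (R : G →* 𝓐)
    {κ₁ κ₂ : Type*} [Fintype κ₁] [DecidableEq κ₁] [Fintype κ₂] [DecidableEq κ₂]
    (t : Kˣ → G) (um : (κ₁ → K) → G) (up : (κ₂ → K) → G)
    (hup : ∀ v w, up (v + w) = up v * up w) (N : ℕ) (hN : 0 < N)
    (ht1 : ∀ s w, (t s)⁻¹ * um w * t s = um ((s : K) ^ N • w))
    (ht2 : ∀ s w, (t s)⁻¹ * up w * t s = up (((s⁻¹ : Kˣ) : K) ^ N • w))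
    (b' : κ₁ → K) (e' : 𝓐) (he' : e' ≠ 0)
    (he'2 : ∀ w, e' * R (um w) = (χ.compAddMonoidHom τ) (b' ⬝ᵥ w) • e')
    {ι : Type*} [Fintype ι] (c : ι → F') (w : ι → κ₁ → K) (l : ι → G) (φ : ι → κ₂ → K)
    (hl : ∀ i s, (t s)⁻¹ * l i * t s = l i)
    (i0 : ι) (hw0 : w i0 = 0) (hl0 : l i0 = 1) (hφ0 : φ i0 = 0)
    (hA : ∀ i, i ≠ i0 → b' ⬝ᵥ w i ≠ 0)
    (hrel : ∑ i, c i • R (um (w i) * l i * up (φ i)) = 0)
    (hcard : 96 * N ^ 3 * (p ^ Fintype.card ι) ^ 4 < Fintype.card K) :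
    c i0 = 0 := by
  set ψ := χ.compAddMonoidHom τ with hψdef
  have hψ : ψ.IsPrimitive := char_primitive χ hχ τ hτ
  obtain ⟨b, hb⟩ := exists_E_ne_zero ψ hψ hp R up hup e' he'
  set Eb := E ψ R up b with hEb
  have key := coeff_zero χ hχ hp τ hτ N hN (fun i => b' ⬝ᵥ w i) (fun i => b ⬝ᵥ φ i)
    (fun i => c i • (e' * R (l i) * Eb)) i0 (by simp [hw0]) (by simp [hφ0])
    (fun i hi => Or.inl (hA i hi)) hcard ?_
  · rw [hl0, map_one, mul_one] at key
    exact (smul_eq_zero.1 key).resolve_right hb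
  · intro s
    have h1 : e' * R ((t s)⁻¹) * (∑ i, c i • R (um (w i) * l i * up (φ i))) * R (t s) * Eb
        = 0 := by
      rw [hrel]; simp
    rw [Finset.mul_sum, Finset.sum_mul, Finset.sum_mul] at h1
    rw [← h1]
    refine Finset.sum_congr rfl fun i _ => ?_
    have h2 : e' * R ((t s)⁻¹) * (c i • R (um (w i) * l i * up (φ i))) * R (t s) * Eb
        = c i • ((e' * R (um ((s : K) ^ N • w i))) * R (l i) *
          (R (up (((s⁻¹ : Kˣ) : K) ^ N • φ i)) * Eb)) := by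
      rw [← ht1, ← ht2]
      conv_rhs => rw [← hl i s]
      simp only [map_mul, mul_smul_comm, smul_mul_assoc]
      congr 1
      have hinv : R (t s) * R ((t s)⁻¹) = 1 := by rw [← map_mul, mul_inv_cancel, map_one]
      simp only [mul_assoc]
      rw [← mul_assoc (R (t s)) (R ((t s)⁻¹)), hinv, one_mul]
      rw [← mul_assoc (R (t s)) (R ((t s)⁻¹)), hinv, one_mul]
    rw [h2, he'2, R_mul_E ψ R up hup, ← hEb]
    rw [dotProduct_smul, dotProduct_smul, smul_eq_mul, smul_eq_mul]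
    simp only [smul_mul_assoc, mul_smul_comm, smul_smul]
    congr 1
    have h3 : χ (τ (b' ⬝ᵥ w i * (s : K) ^ N + b ⬝ᵥ φ i * ((s⁻¹ : Kˣ) : K) ^ N)) =
        ψ ((s : K) ^ N * b' ⬝ᵥ w i) * ψ (((s⁻¹ : Kˣ) : K) ^ N * b ⬝ᵥ φ i) := by
      rw [← AddChar.map_add_eq_mul, hψdef, AddChar.compAddMonoidHom_apply]
      congr 2
      ring
    rw [h3]
    ring

end idem

end Pool.Agent.Lib.MP_467141_al
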