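import Mathlib

/-!
# A faithful module over a group algebra has all irreducible modules as composition factors
-/

namespace Pool.Agent.Lib.MP_467141_al

section

variable {F H V W : Type*} [Field F] [Group H] [AddCommGroup V] [Module F V]
  [AddCommGroup W] [Module F W]

/-- elementary form of: `σ` is a quotient of a subrepresentation of `ρ`. -/
def IsSubquot (ρ : Representation F H V) (σ : Representation F H W) : Prop :=
  ∃ (A : Subrepresentation ρ) (f : A.toSubmodule →ₗ[F] W), Function.Surjective f ∧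
    ∀ (h : H) (x : A.toSubmodule), f (A.toRepresentation h x) = σ h (f x)

lemma step (ρ : Representation F H V) (σ : Representation F H W) [σ.IsIrreducible]
    (hno : ¬ IsSubquot ρ σ) (w : W)
    (𝔞 : Submodule F (MonoidAlgebra F H))
    (hcl : ∀ (h : H), ∀ x ∈ 𝔞, MonoidAlgebra.of F H h * x ∈ 𝔞)
    (hne : ∃ a ∈ 𝔞, σ.asAlgebraHom a w ≠ 0) (v : V) :
    ∃ a ∈ 𝔞, ρ.asAlgebraHom a v = 0 ∧ σ.asAlgebraHom a w ≠ 0 := by
  by_contra hcon
  push Not at hcon
  apply hno
  let g : 𝔞 →ₗ[F] V := (LinearMap.applyₗ v ∘ₗ ρ.asAlgebraHom.toLinearMap) ∘ₗ 𝔞.subtype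
  let g' : 𝔞 →ₗ[F] W := (LinearMap.applyₗ w ∘ₗ σ.asAlgebraHom.toLinearMap) ∘ₗ 𝔞.subtype
  have hg : ∀ a : 𝔞, g a = ρ.asAlgebraHom (a : MonoidAlgebra F H) v := fun a => rfl
  have hg' : ∀ a : 𝔞, g' a = σ.asAlgebraHom (a : MonoidAlgebra F H) w := fun a => rfl
  have hker : LinearMap.ker g ≤ LinearMap.ker g' := by
    intro a ha
    rw [LinearMap.mem_ker] at ha ⊢
    exact hcon a a.2 ha
  have hact : ∀ (h : H) (a : 𝔞), g ⟨MonoidAlgebra.of F H h * a, hcl h a a.2⟩ = ρ h (g a) := by
    intro h a
    rw [hg, hg, map_mul, Representation.asAlgebraHom_of]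
    rfl
  have hact' : ∀ (h : H) (a : 𝔞), g' ⟨MonoidAlgebra.of F H h * a, hcl h a a.2⟩ = σ h (g' a) := by
    intro h a
    rw [hg', hg', map_mul, Representation.asAlgebraHom_of]
    rfl
  let A : Subrepresentation ρ :=
    { toSubmodule := LinearMap.range g
      apply_mem_toSubmodule := by
        rintro h _ ⟨a, rfl⟩
        exact ⟨⟨MonoidAlgebra.of F H h * a, hcl h a a.2⟩, hact h a⟩ }
  let f : A.toSubmodule →ₗ[F] W :=
    ((LinearMap.ker g).liftQ g' hker) ∘ₗ (g.quotKerEquivRange.symm : _ →ₗ[F] _)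
  have hf : ∀ (a : 𝔞) (ha : g a ∈ A.toSubmodule), f ⟨g a, ha⟩ = g' a := by
    intro a ha
    have h1 : g.quotKerEquivRange.symm ⟨g a, ha⟩ = (LinearMap.ker g).mkQ a :=
      LinearMap.quotKerEquivRange_symm_apply_image g a ha
    change ((LinearMap.ker g).liftQ g' hker) (g.quotKerEquivRange.symm ⟨g a, ha⟩) = g' a
    rw [h1]
    rfl
  have hrange : LinearMap.range g' = ⊤ := by
    let B : Subrepresentation σ :=
      { toSubmodule := LinearMap.range g'
        apply_mem_toSubmodule := by
          rintro h _ ⟨a, rfl⟩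
          exact ⟨⟨MonoidAlgebra.of F H h * a, hcl h a a.2⟩, hact' h a⟩ }
    have hB : B = ⊥ ∨ B = ⊤ := eq_bot_or_eq_top B
    rcases hB with hB | hB
    · exfalso
      obtain ⟨a, ha, hane⟩ := hne
      have h1 : g' ⟨a, ha⟩ ∈ B.toSubmodule := ⟨⟨a, ha⟩, rfl⟩
      rw [hB] at h1
      exact hane h1
    · have : B.toSubmodule = (⊤ : Subrepresentation σ).toSubmodule := by rw [hB]
      exact this
  have hmem : ∀ a : 𝔞, g a ∈ A.toSubmodule := fun a => ⟨a, rfl⟩
  refine ⟨A, f, ?_, ?_⟩
  · intro y
    have hy : y ∈ LinearMap.range g' := by rw [hrange]; trivial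
    obtain ⟨a, rfl⟩ := hy
    exact ⟨⟨g a, hmem a⟩, hf a _⟩
  · rintro h ⟨_, ⟨a, rfl⟩⟩
    have h1 : A.toRepresentation h ⟨g a, hmem a⟩ =
        ⟨g ⟨MonoidAlgebra.of F H h * a, hcl h a a.2⟩, hmem _⟩ := by
      apply Subtype.ext
      exact (hact h a).symm
    exact (congrArg f h1).trans ((hf _ _).trans
      ((hact' h a).trans (congrArg (σ h) (hf a (hmem a)).symm)))

/-- If the group algebra acts faithfully on the finite dimensional space `V`, then every
irreducible representation is a quotient of a subrepresentation of `V`. -/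
theorem isSubquot_of_faithful [FiniteDimensional F V]
    (ρ : Representation F H V) (σ : Representation F H W) [σ.IsIrreducible]
    (hfaith : ∀ a : MonoidAlgebra F H, ρ.asAlgebraHom a = 0 → a = 0) :
    IsSubquot ρ σ := by
  classical
  by_contra hno
  have hnt : Nontrivial W := by
    by_contra hW
    rw [not_nontrivial_iff_subsingleton] at hW
    have : (⊥ : Subrepresentation σ) = ⊤ := by
      apply Subrepresentation.toSubmodule_injective
      exact Subsingleton.elim _ _
    exact bot_ne_top this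
  obtain ⟨w, hw⟩ := exists_ne (0 : W)
  have key : ∀ S : Finset V, ∃ a : MonoidAlgebra F H,
      (∀ v ∈ S, ρ.asAlgebraHom a v = 0) ∧ σ.asAlgebraHom a w ≠ 0 := by
    intro S
    induction S using Finset.induction_on with
    | empty => exact ⟨1, by simp, by simpa using hw⟩
    | insert v S _ ih =>
      let 𝔞 : Submodule F (MonoidAlgebra F H) :=
        { carrier := {a | ∀ v ∈ S, ρ.asAlgebraHom a v = 0}
          add_mem' := by
            intro a b ha hb v hv
            rw [map_add, LinearMap.add_apply, ha v hv, hb v hv, add_zero]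
          zero_mem' := by
            intro v _
            rw [map_zero, LinearMap.zero_apply]
          smul_mem' := by
            intro c a ha v hv
            rw [map_smul, LinearMap.smul_apply, ha v hv, smul_zero] }
      have hcl : ∀ (h : H), ∀ x ∈ 𝔞, MonoidAlgebra.of F H h * x ∈ 𝔞 := by
        intro h x hx v hv
        rw [map_mul, Module.End.mul_apply, hx v hv, map_zero]
      obtain ⟨a, ha, hav, haw⟩ := step ρ σ hno w 𝔞 hcl
        (by obtain ⟨a, ha, hw⟩ := ih; exact ⟨a, ha, hw⟩) v
      refine ⟨a, ?_, haw⟩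
      intro u hu
      rcases Finset.mem_insert.1 hu with rfl | hu
      · exact hav
      · exact ha u hu
  let B := Module.finBasis F V
  obtain ⟨a, ha, haw⟩ := key (Finset.univ.image B)
  have ha0 : ρ.asAlgebraHom a = 0 := by
    apply B.ext
    intro i
    rw [LinearMap.zero_apply]
    exact ha _ (Finset.mem_image_of_mem _ (Finset.mem_univ i))
  rw [hfaith a ha0] at haw
  simp at haw

end

end Pool.Agent.Lib.MP_467141_al
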