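import Mathlib

/-!
# A normal subgroup of `SL` containing one root subgroup is everything
-/

namespace Pool.Agent.Lib.MP_467141_al

open Matrix Matrix.SpecialLinearGroup

variable {ι F : Type*} [Fintype ι] [DecidableEq ι] [Field F]

omit [Fintype ι] in
lemma single_eq_smul (i j : ι) (c : F) : single i j c = c • single i j (1 : F) := by
  rw [smul_single, smul_eq_mul, mul_one]

lemma diag2n_eq {i j : ι} (hij : i ≠ j) (a : F) (ha : a ≠ 0) :
    diag2n hij a ha = transvection hij a * transvection hij.symm (-a⁻¹) * transvection hij a *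
      (transvection hij (-1) * transvection hij.symm 1 * transvection hij (-1)) := by
  have t1 : (single i j (1 : F)) * single i j (1 : F) = 0 :=
    single_mul_single_of_ne _ _ _ _ hij.symm _
  have t2 : (single i j (1 : F)) * single j i (1 : F) = single i i 1 := by
    rw [single_mul_single_same, one_mul]
  have t3 : (single j i (1 : F)) * single i j (1 : F) = single j j 1 := by
    rw [single_mul_single_same, one_mul]
  have t4 : (single j i (1 : F)) * single j i (1 : F) = 0 :=
    single_mul_single_of_ne _ _ _ _ hij _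
  have t5 : (single i i (1 : F)) * single i j (1 : F) = single i j 1 := by
    rw [single_mul_single_same, one_mul]
  have t6 : (single i i (1 : F)) * single j i (1 : F) = 0 :=
    single_mul_single_of_ne _ _ _ _ hij _
  have t7 : (single j j (1 : F)) * single j i (1 : F) = single j i 1 := by
    rw [single_mul_single_same, one_mul]
  have t8 : (single j j (1 : F)) * single i j (1 : F) = 0 :=
    single_mul_single_of_ne _ _ _ _ hij.symm _
  have t9 : (single i j (1 : F)) * single i i (1 : F) = 0 :=
    single_mul_single_of_ne _ _ _ _ hij.symm _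
  have t10 : (single i j (1 : F)) * single j j (1 : F) = single i j 1 := by
    rw [single_mul_single_same, one_mul]
  have t11 : (single j i (1 : F)) * single i i (1 : F) = single j i 1 := by
    rw [single_mul_single_same, one_mul]
  have t12 : (single j i (1 : F)) * single j j (1 : F) = 0 :=
    single_mul_single_of_ne _ _ _ _ hij _
  have t13 : (single i i (1 : F)) * single i i (1 : F) = single i i 1 := by
    rw [single_mul_single_same, one_mul]
  have t14 : (single j j (1 : F)) * single j j (1 : F) = single j j 1 := by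
    rw [single_mul_single_same, one_mul]
  have t15 : (single i i (1 : F)) * single j j (1 : F) = 0 :=
    single_mul_single_of_ne _ _ _ _ hij _
  have t16 : (single j j (1 : F)) * single i i (1 : F) = 0 :=
    single_mul_single_of_ne _ _ _ _ hij.symm _
  have key : ∀ (x : F) (hx : x ≠ 0), ((transvection hij x * transvection hij.symm (-x⁻¹) *
      transvection hij x : SpecialLinearGroup ι F) : Matrix ι ι F) =
      1 - single i i 1 - single j j 1 + x • single i j 1 - x⁻¹ • single j i 1 := by
    intro x hx
    rw [coe_mul, coe_mul, transvection_coe, transvection_coe, single_eq_smul i j x,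
      single_eq_smul j i (-x⁻¹)]
    simp only [mul_add, add_mul, mul_one, one_mul, smul_mul_assoc, mul_smul_comm, t1, t2, t3,
      t5, smul_zero]
    match_scalars <;> field_simp <;> ring
  apply Subtype.ext
  have k2 := key (-1) (by norm_num)
  rw [show (-(-1 : F)⁻¹) = 1 by norm_num] at k2
  rw [coe_mul, key a ha, k2]
  simp only [mul_add, add_mul, mul_sub, sub_mul, mul_one, one_mul, smul_mul_assoc, mul_smul_comm,
    t1, t2, t3, t4, t5, t6, t7, t8, t9, t10, t11, t12, t13, t14, t15, t16, smul_zero]
  have e : (diag2n hij a ha).1 = 1 - single i i 1 - single j j 1 + a • single i i 1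
      + a⁻¹ • single j j 1 := by
    rw [diag2n_coe]
    ext x y
    by_cases hxy : x = y
    · subst hxy
      rw [diagonal_apply_eq]
      by_cases h1 : x = i
      · subst h1
        simp [hij.symm]
      · by_cases h2 : x = j
        · subst h2
          simp [hij, h1]
        · have h1' : ¬ i = x := fun h => h1 h.symm
          have h2' : ¬ j = x := fun h => h2 h.symm
          simp [h1, h2, h1', h2']
    · rw [diagonal_apply_ne _ hxy]
      have h3 : ∀ z : ι, ¬ (z = x ∧ z = y) := fun z h => hxy (h.1.symm.trans h.2)
      simp [h3, hxy]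
  rw [e]
  match_scalars <;> field_simp <;> ring

lemma sign_sq (σ : Equiv.Perm ι) :
    ((Equiv.Perm.sign σ : ℤ) : F) * ((Equiv.Perm.sign σ : ℤ) : F) = 1 := by
  rw [← Int.cast_mul, ← Units.val_mul, Int.units_mul_self, Units.val_one, Int.cast_one]

/-- the monomial matrix attached to a permutation, with the sign put in the column `j₀`. -/
noncomputable def mono (σ : Equiv.Perm ι) (j₀ : ι) : SpecialLinearGroup ι F :=
  ⟨((diagonal fun k => if k = j₀ then ((Equiv.Perm.sign σ : ℤ) : F) else 1).submatrix
      (σ⁻¹ : Equiv.Perm ι) id), by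
    rw [det_permute, det_diagonal, Finset.prod_ite_eq' Finset.univ j₀]
    simp only [Finset.mem_univ, if_true]
    rw [Equiv.Perm.sign_inv]
    exact sign_sq σ⟩

lemma mono_conj (σ : Equiv.Perm ι) {i₀ j₀ i j : ι} (h0 : i₀ ≠ j₀) (hij : i ≠ j)
    (hi : σ i₀ = i) (hj : σ j₀ = j) (y : F) :
    mono σ j₀ * transvection h0 y =
      transvection hij (((Equiv.Perm.sign σ : ℤ) : F) * y) * mono σ j₀ := by
  have hs : ((Equiv.Perm.sign σ : ℤ) : F) * ((Equiv.Perm.sign σ : ℤ) : F) = 1 := sign_sq σ
  apply Subtype.ext
  rw [coe_mul, coe_mul, transvection_coe, transvection_coe, mul_add, add_mul, mul_one, one_mul]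
  congr 1
  ext a b
  rw [Matrix.mul_apply, Matrix.mul_apply]
  simp only [mono, submatrix_apply, id_eq, single_apply]
  rw [Finset.sum_eq_single i₀, Finset.sum_eq_single j]
  · have e1 : σ⁻¹ j = j₀ := by rw [← hj]; simp
    rw [e1]
    by_cases ha : i = a
    · subst ha
      have e2 : σ⁻¹ i = i₀ := by rw [← hi]; simp
      rw [e2]
      by_cases hb : j₀ = b
      · subst hb
        simp only [diagonal_apply_eq, and_self, if_true, h0, if_false, one_mul]
        rw [mul_right_comm, hs, one_mul]
      · simp [hb]
    · have e3 : σ⁻¹ a ≠ i₀ := by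
        intro h
        apply ha
        rw [← hi, ← h]
        simp
      rw [diagonal_apply_ne _ e3]
      simp [ha]
  · intro k _ hk
    simp [hk.symm]
  · intro h
    exact absurd (Finset.mem_univ _) h
  · intro k _ hk
    simp [hk.symm]
  · intro h
    exact absurd (Finset.mem_univ _) h

/-- A normal subgroup of `SL` containing one root subgroup is the whole group. -/
theorem normal_eq_top (N : Subgroup (SpecialLinearGroup ι F)) [hN : N.Normal]
    {i₀ j₀ : ι} (h0 : i₀ ≠ j₀) (hroot : ∀ y : F, transvection h0 y ∈ N) : N = ⊤ := by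
  have hall : ∀ (i j : ι) (hij : i ≠ j) (y : F), transvection hij y ∈ N := by
    intro i j hij y
    obtain ⟨σ, hi, hj⟩ : ∃ σ : Equiv.Perm ι, σ i₀ = i ∧ σ j₀ = j := by
      refine ⟨(Equiv.swap (Equiv.swap i₀ i j₀) j) * Equiv.swap i₀ i, ?_, ?_⟩
      · rw [Equiv.Perm.mul_apply, Equiv.swap_apply_left]
        apply Equiv.swap_apply_of_ne_of_ne
        · intro h
          have h2 : Equiv.swap i₀ i i₀ = Equiv.swap i₀ i j₀ := by
            rw [Equiv.swap_apply_left]; exact h
          exact h0 ((Equiv.swap i₀ i).injective h2)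
        · exact hij
      · rw [Equiv.Perm.mul_apply, Equiv.swap_apply_left]
    have hs : ((Equiv.Perm.sign σ : ℤ) : F) * ((Equiv.Perm.sign σ : ℤ) : F) = 1 := sign_sq σ
    have h1 := mono_conj σ h0 hij hi hj (((Equiv.Perm.sign σ : ℤ) : F) * y)
    rw [← mul_assoc, hs, one_mul] at h1
    have h2 : transvection hij y = mono σ j₀ * transvection h0
        (((Equiv.Perm.sign σ : ℤ) : F) * y) * (mono σ j₀)⁻¹ := by
      rw [h1, mul_assoc, mul_inv_cancel, mul_one]
    rw [h2]
    exact hN.conj_mem _ (hroot _) _
  have : Nontrivial ι := ⟨⟨i₀, j₀, h0⟩⟩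
  rw [eq_top_iff]
  rintro g -
  refine diagonal_transvection_induction' (fun g => g ∈ N) g ?_ hall (fun A B => N.mul_mem)
  intro i j hij c hc
  rw [diag2n_eq hij c hc]
  exact N.mul_mem (N.mul_mem (N.mul_mem (hall _ _ _ _) (hall _ _ _ _)) (hall _ _ _ _))
    (N.mul_mem (N.mul_mem (hall _ _ _ _) (hall _ _ _ _)) (hall _ _ _ _))

end Pool.Agent.Lib.MP_467141_al
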