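import Mathlib

/-!
# Equidistribution of `s ↦ A s ^ n + B s ^ (-n)` by an elementary fourth moment bound

For a finite field `K`, a nonzero additive functional `τ : K →+ ZMod p` and a small additive
subgroup `M` of `K × K`, every additive functional on `M` is of the form
`(A, B) ↦ τ (A * s ^ n + B * s⁻¹ ^ n)` for some unit `s`.
-/

namespace Pool.Agent.Lib.MP_467141_al

open Finset

section moment

variable {K : Type*} [Field K] [Fintype K] [DecidableEq K]

/-- the exponential sum -/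
noncomputable def S (ψ : AddChar K ℂ) (n : ℕ) (A B : K) : ℂ :=
  ∑ s : Kˣ, ψ (A * (s : K) ^ n + B * ((s⁻¹ : Kˣ) : K) ^ n)

lemma card_pow_eq_le (n : ℕ) (hn : 0 < n) (c : K) :
    (univ.filter (fun s : Kˣ => (s : K) ^ n = c)).card ≤ n := by
  classical
  have h1 : ((univ.filter (fun s : Kˣ => (s : K) ^ n = c)).image (fun s : Kˣ => (s : K))).card
      = (univ.filter (fun s : Kˣ => (s : K) ^ n = c)).card :=
    Finset.card_image_of_injective _ Units.val_injective
  rw [← h1]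
  calc ((univ.filter (fun s : Kˣ => (s : K) ^ n = c)).image (fun s : Kˣ => (s : K))).card
      ≤ (Polynomial.nthRoots n c).toFinset.card := by
        apply Finset.card_le_card
        intro x hx
        rw [Finset.mem_image] at hx
        obtain ⟨s, hs, rfl⟩ := hx
        rw [Multiset.mem_toFinset, Polynomial.mem_nthRoots hn]
        exact (Finset.mem_filter.1 hs).2
    _ ≤ Multiset.card (Polynomial.nthRoots n c) := Multiset.toFinset_card_le _
    _ ≤ n := Polynomial.card_nthRoots n c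

/-- number of pairs with `s' ^ n = c * s ^ n` -/
lemma pair_count (n : ℕ) (hn : 0 < n) (c : K) :
    ∑ s : Kˣ, ∑ s' : Kˣ, (if (s' : K) ^ n = c * (s : K) ^ n then (1 : ℝ) else 0)
      ≤ n * Fintype.card K := by
  calc ∑ s : Kˣ, ∑ s' : Kˣ, (if (s' : K) ^ n = c * (s : K) ^ n then (1 : ℝ) else 0)
      ≤ ∑ s : Kˣ, (n : ℝ) := by
        apply Finset.sum_le_sum
        intro s _
        rw [Finset.sum_boole]
        exact_mod_cast card_pow_eq_le n hn _
    _ = Fintype.card Kˣ * n := by simp [Finset.card_univ]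
    _ ≤ n * Fintype.card K := by
        rw [mul_comm]
        have : Fintype.card Kˣ ≤ Fintype.card K :=
          Fintype.card_le_of_injective (fun s : Kˣ => (s : K)) Units.val_injective
        have h2 : (Fintype.card Kˣ : ℝ) ≤ Fintype.card K := by exact_mod_cast this
        exact mul_le_mul_of_nonneg_left h2 (by positivity)

lemma pair_count_nonneg (n : ℕ) (c : K) :
    0 ≤ ∑ s : Kˣ, ∑ s' : Kˣ, (if (s' : K) ^ n = c * (s : K) ^ n then (1 : ℝ) else 0) :=
  Finset.sum_nonneg fun _ _ => Finset.sum_nonneg fun _ _ => by split_ifs <;> norm_num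

omit [Fintype K] [DecidableEq K] in
lemma quad_cases {x1 x2 x3 x4 : K} (h1 : x1 ≠ 0) (h2 : x2 ≠ 0) (h3 : x3 ≠ 0) (h4 : x4 ≠ 0)
    (ha : x1 + x2 - x3 - x4 = 0) (hb : x1⁻¹ + x2⁻¹ - x3⁻¹ - x4⁻¹ = 0) :
    (x2 = -x1 ∧ x4 = -x3) ∨ (x3 = x1 ∧ x4 = x2) ∨ (x3 = x2 ∧ x4 = x1) := by
  have e : (x1 + x2) * (x3 * x4 - x1 * x2) = 0 := by
    field_simp at hb
    have hs : x3 + x4 = x1 + x2 := by linear_combination -ha
    linear_combination hb + x1 * x2 * hs * 1
  rcases mul_eq_zero.1 e with h | h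
  · left
    constructor
    · linear_combination h
    · linear_combination h - ha
  · right
    have e2 : (x3 - x1) * (x3 - x2) = 0 := by
      linear_combination -h - x3 * ha
    rcases mul_eq_zero.1 e2 with h' | h'
    · left
      constructor
      · linear_combination h'
      · linear_combination -ha - h'
    · right
      constructor
      · linear_combination h'
      · linear_combination -ha - h'

/-- the number of solutions (as a real) of the additive system -/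
noncomputable def N4 (K : Type*) [Field K] [Fintype K] [DecidableEq K] (n : ℕ) : ℝ :=
  ∑ s1 : Kˣ, ∑ s2 : Kˣ, ∑ s3 : Kˣ, ∑ s4 : Kˣ,
    (if ((s1 : K) ^ n + (s2 : K) ^ n - (s3 : K) ^ n - (s4 : K) ^ n = 0 ∧
      ((s1⁻¹ : Kˣ) : K) ^ n + ((s2⁻¹ : Kˣ) : K) ^ n - ((s3⁻¹ : Kˣ) : K) ^ n
        - ((s4⁻¹ : Kˣ) : K) ^ n = 0) then (1 : ℝ) else 0)

lemma N4_le (n : ℕ) (hn : 0 < n) : N4 K n ≤ 3 * n ^ 2 * (Fintype.card K : ℝ) ^ 2 := by
  have key : ∀ s1 s2 s3 s4 : Kˣ,
      (if ((s1 : K) ^ n + (s2 : K) ^ n - (s3 : K) ^ n - (s4 : K) ^ n = 0 ∧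
      ((s1⁻¹ : Kˣ) : K) ^ n + ((s2⁻¹ : Kˣ) : K) ^ n - ((s3⁻¹ : Kˣ) : K) ^ n
        - ((s4⁻¹ : Kˣ) : K) ^ n = 0) then (1 : ℝ) else 0) ≤
      (if (s2 : K) ^ n = (-1) * (s1 : K) ^ n then (1 : ℝ) else 0) *
        (if (s4 : K) ^ n = (-1) * (s3 : K) ^ n then (1 : ℝ) else 0) +
      (if (s3 : K) ^ n = 1 * (s1 : K) ^ n then (1 : ℝ) else 0) *
        (if (s4 : K) ^ n = 1 * (s2 : K) ^ n then (1 : ℝ) else 0) +
      (if (s3 : K) ^ n = 1 * (s2 : K) ^ n then (1 : ℝ) else 0) *
        (if (s4 : K) ^ n = 1 * (s1 : K) ^ n then (1 : ℝ) else 0) := by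
    intro s1 s2 s3 s4
    have hnn : ∀ (P : Prop) [Decidable P], (0 : ℝ) ≤ (if P then (1 : ℝ) else 0) := by
      intro P _; split_ifs <;> norm_num
    by_cases h : ((s1 : K) ^ n + (s2 : K) ^ n - (s3 : K) ^ n - (s4 : K) ^ n = 0 ∧
      ((s1⁻¹ : Kˣ) : K) ^ n + ((s2⁻¹ : Kˣ) : K) ^ n - ((s3⁻¹ : Kˣ) : K) ^ n
        - ((s4⁻¹ : Kˣ) : K) ^ n = 0)
    · rw [if_pos h]
      obtain ⟨ha, hb⟩ := h
      have hx : ∀ s : Kˣ, ((s : K) ^ n) ≠ 0 := fun s => pow_ne_zero n s.ne_zero
      have hinv : ∀ s : Kˣ, ((s⁻¹ : Kˣ) : K) ^ n = ((s : K) ^ n)⁻¹ := by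
        intro s; rw [Units.val_inv_eq_inv_val, inv_pow]
      rw [hinv, hinv, hinv, hinv] at hb
      rcases quad_cases (hx s1) (hx s2) (hx s3) (hx s4) ha hb with ⟨h1, h2⟩ | ⟨h1, h2⟩ | ⟨h1, h2⟩
      · rw [if_pos (show (s2 : K) ^ n = (-1) * (s1 : K) ^ n by rw [h1]; ring),
          if_pos (show (s4 : K) ^ n = (-1) * (s3 : K) ^ n by rw [h2]; ring)]
        have := mul_nonneg (hnn ((s3 : K) ^ n = 1 * (s1 : K) ^ n))
          (hnn ((s4 : K) ^ n = 1 * (s2 : K) ^ n))
        have := mul_nonneg (hnn ((s3 : K) ^ n = 1 * (s2 : K) ^ n))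
          (hnn ((s4 : K) ^ n = 1 * (s1 : K) ^ n))
        linarith
      · rw [if_pos (show (s3 : K) ^ n = 1 * (s1 : K) ^ n by rw [h1]; ring),
          if_pos (show (s4 : K) ^ n = 1 * (s2 : K) ^ n by rw [h2]; ring)]
        have := mul_nonneg (hnn ((s2 : K) ^ n = (-1) * (s1 : K) ^ n))
          (hnn ((s4 : K) ^ n = (-1) * (s3 : K) ^ n))
        have := mul_nonneg (hnn ((s3 : K) ^ n = 1 * (s2 : K) ^ n))
          (hnn ((s4 : K) ^ n = 1 * (s1 : K) ^ n))
        linarith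
      · rw [if_pos (show (s3 : K) ^ n = 1 * (s2 : K) ^ n by rw [h1]; ring),
          if_pos (show (s4 : K) ^ n = 1 * (s1 : K) ^ n by rw [h2]; ring)]
        have := mul_nonneg (hnn ((s2 : K) ^ n = (-1) * (s1 : K) ^ n))
          (hnn ((s4 : K) ^ n = (-1) * (s3 : K) ^ n))
        have := mul_nonneg (hnn ((s3 : K) ^ n = 1 * (s1 : K) ^ n))
          (hnn ((s4 : K) ^ n = 1 * (s2 : K) ^ n))
        linarith
    · rw [if_neg h]
      have := mul_nonneg (hnn ((s2 : K) ^ n = (-1) * (s1 : K) ^ n))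
        (hnn ((s4 : K) ^ n = (-1) * (s3 : K) ^ n))
      have := mul_nonneg (hnn ((s3 : K) ^ n = 1 * (s1 : K) ^ n))
        (hnn ((s4 : K) ^ n = 1 * (s2 : K) ^ n))
      have := mul_nonneg (hnn ((s3 : K) ^ n = 1 * (s2 : K) ^ n))
        (hnn ((s4 : K) ^ n = 1 * (s1 : K) ^ n))
      linarith
  have hD := pair_count (K := K) n hn (-1)
  have hE := pair_count (K := K) n hn 1
  have hD0 := pair_count_nonneg (K := K) n (-1)
  have hE0 := pair_count_nonneg (K := K) n 1
  set D := ∑ s : Kˣ, ∑ s' : Kˣ, (if (s' : K) ^ n = (-1) * (s : K) ^ n then (1 : ℝ) else 0) with hDdef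
  set E := ∑ s : Kˣ, ∑ s' : Kˣ, (if (s' : K) ^ n = 1 * (s : K) ^ n then (1 : ℝ) else 0) with hEdef
  have tot : N4 K n ≤ D * D + E * E + E * E := by
    unfold N4
    calc _ ≤ ∑ s1 : Kˣ, ∑ s2 : Kˣ, ∑ s3 : Kˣ, ∑ s4 : Kˣ,
        ((if (s2 : K) ^ n = (-1) * (s1 : K) ^ n then (1 : ℝ) else 0) *
        (if (s4 : K) ^ n = (-1) * (s3 : K) ^ n then (1 : ℝ) else 0) +
      (if (s3 : K) ^ n = 1 * (s1 : K) ^ n then (1 : ℝ) else 0) *
        (if (s4 : K) ^ n = 1 * (s2 : K) ^ n then (1 : ℝ) else 0) +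
      (if (s3 : K) ^ n = 1 * (s2 : K) ^ n then (1 : ℝ) else 0) *
        (if (s4 : K) ^ n = 1 * (s1 : K) ^ n then (1 : ℝ) else 0)) := by
          refine Finset.sum_le_sum fun s1 _ => Finset.sum_le_sum fun s2 _ =>
            Finset.sum_le_sum fun s3 _ => Finset.sum_le_sum fun s4 _ => key s1 s2 s3 s4
      _ = D * D + E * E + E * E := by
          simp only [Finset.sum_add_distrib]
          congr 1
          · congr 1
            · rw [hDdef, Finset.sum_mul]
              refine Finset.sum_congr rfl fun s1 _ => ?_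
              rw [Finset.sum_mul]
              refine Finset.sum_congr rfl fun s2 _ => ?_
              rw [Finset.mul_sum]
              refine Finset.sum_congr rfl fun s3 _ => ?_
              rw [Finset.mul_sum]
            · rw [hEdef, Finset.sum_mul]
              refine Finset.sum_congr rfl fun s1 _ => ?_
              rw [Finset.sum_mul, Finset.sum_comm]
              refine Finset.sum_congr rfl fun s3 _ => ?_
              rw [Finset.mul_sum]
              refine Finset.sum_congr rfl fun s2 _ => ?_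
              rw [Finset.mul_sum]
          · rw [hEdef]
            rw [Finset.sum_comm, Finset.sum_mul]
            refine Finset.sum_congr rfl fun s2 _ => ?_
            rw [Finset.sum_mul, Finset.sum_comm]
            refine Finset.sum_congr rfl fun s3 _ => ?_
            rw [Finset.mul_sum]
            refine Finset.sum_congr rfl fun s1 _ => ?_
            rw [Finset.mul_sum]
  have hDD : D * D ≤ (n * Fintype.card K) * (n * Fintype.card K) :=
    mul_le_mul hD hD hD0 (by positivity)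
  have hEE : E * E ≤ (n * Fintype.card K) * (n * Fintype.card K) :=
    mul_le_mul hE hE hE0 (by positivity)
  nlinarith [tot, hDD, hEE]

lemma S_mul_conj (ψ : AddChar K ℂ) (n : ℕ) (A B : K) :
    S ψ n A B * (starRingEnd ℂ) (S ψ n A B) = ∑ s1 : Kˣ, ∑ s3 : Kˣ,
      ψ (A * ((s1 : K) ^ n - (s3 : K) ^ n)
        + B * (((s1⁻¹ : Kˣ) : K) ^ n - ((s3⁻¹ : Kˣ) : K) ^ n)) := by
  unfold S
  rw [map_sum, Finset.sum_mul_sum]
  refine Finset.sum_congr rfl fun s1 _ => Finset.sum_congr rfl fun s3 _ => ?_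
  rw [← AddChar.map_neg_eq_conj, ← AddChar.map_add_eq_mul]
  congr 1
  ring

lemma norm_S_pow_four (ψ : AddChar K ℂ) (n : ℕ) (A B : K) :
    ((‖S ψ n A B‖ ^ 4 : ℝ) : ℂ) = ∑ s1 : Kˣ, ∑ s2 : Kˣ, ∑ s3 : Kˣ, ∑ s4 : Kˣ,
      ψ (A * ((s1 : K) ^ n + (s2 : K) ^ n - (s3 : K) ^ n - (s4 : K) ^ n)) *
      ψ (B * (((s1⁻¹ : Kˣ) : K) ^ n + ((s2⁻¹ : Kˣ) : K) ^ n - ((s3⁻¹ : Kˣ) : K) ^ n
        - ((s4⁻¹ : Kˣ) : K) ^ n)) := by
  have h : ((‖S ψ n A B‖ ^ 4 : ℝ) : ℂ) =
      (S ψ n A B * (starRingEnd ℂ) (S ψ n A B)) * (S ψ n A B * (starRingEnd ℂ) (S ψ n A B)) := by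
    rw [Complex.mul_conj']
    push_cast
    ring
  rw [h, S_mul_conj, Finset.sum_mul]
  refine Finset.sum_congr rfl fun s1 _ => ?_
  rw [Finset.mul_sum]
  refine Finset.sum_congr rfl fun s2 _ => ?_
  rw [Finset.sum_mul_sum]
  refine Finset.sum_congr rfl fun s3 _ => Finset.sum_congr rfl fun s4 _ => ?_
  rw [← AddChar.map_add_eq_mul, ← AddChar.map_add_eq_mul]
  congr 1
  ring

lemma sum_norm_S_pow_four (ψ : AddChar K ℂ) (hψ : ψ.IsPrimitive) (n : ℕ) :
    ∑ A : K, ∑ B : K, ‖S ψ n A B‖ ^ 4 = (Fintype.card K : ℝ) ^ 2 * N4 K n := by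
  have hC : ((∑ A : K, ∑ B : K, ‖S ψ n A B‖ ^ 4 : ℝ) : ℂ)
      = (((Fintype.card K : ℝ) ^ 2 * N4 K n : ℝ) : ℂ) := by
    rw [Complex.ofReal_sum]
    simp_rw [Complex.ofReal_sum, norm_S_pow_four]
    have step : ∀ (f : Kˣ → Kˣ → Kˣ → Kˣ → K → K → ℂ),
        ∑ A : K, ∑ B : K, ∑ s1 : Kˣ, ∑ s2 : Kˣ, ∑ s3 : Kˣ, ∑ s4 : Kˣ, f s1 s2 s3 s4 A B =
        ∑ s1 : Kˣ, ∑ s2 : Kˣ, ∑ s3 : Kˣ, ∑ s4 : Kˣ, ∑ A : K, ∑ B : K, f s1 s2 s3 s4 A B := by
      intro f
      have h2 : ∀ (g : Kˣ → K → K → ℂ), ∑ A : K, ∑ B : K, ∑ s : Kˣ, g s A B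
          = ∑ s : Kˣ, ∑ A : K, ∑ B : K, g s A B := by
        intro g
        rw [Finset.sum_comm]
        rw [Finset.sum_congr rfl fun B _ => Finset.sum_comm (f := fun A s => g s A B)]
        rw [Finset.sum_comm]
        refine Finset.sum_congr rfl fun s _ => ?_
        rw [Finset.sum_comm]
      rw [h2]
      refine Finset.sum_congr rfl fun s1 _ => ?_
      rw [h2]
      refine Finset.sum_congr rfl fun s2 _ => ?_
      rw [h2]
      refine Finset.sum_congr rfl fun s3 _ => ?_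
      rw [h2]
    rw [step]
    unfold N4
    push_cast
    rw [Finset.mul_sum]
    refine Finset.sum_congr rfl fun s1 _ => ?_
    rw [Finset.mul_sum]
    refine Finset.sum_congr rfl fun s2 _ => ?_
    rw [Finset.mul_sum]
    refine Finset.sum_congr rfl fun s3 _ => ?_
    rw [Finset.mul_sum]
    refine Finset.sum_congr rfl fun s4 _ => ?_
    rw [← Finset.sum_mul_sum, AddChar.sum_mulShift _ hψ, AddChar.sum_mulShift _ hψ]
    by_cases h1 : (s1 : K) ^ n + (s2 : K) ^ n - (s3 : K) ^ n - (s4 : K) ^ n = 0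
    · by_cases h2 : ((s1 : K))⁻¹ ^ n + ((s2 : K))⁻¹ ^ n - ((s3 : K))⁻¹ ^ n
        - ((s4 : K))⁻¹ ^ n = 0
      · rw [if_pos h1, if_pos h2, if_pos ⟨h1, h2⟩]
        push_cast
        ring
      · rw [if_neg h2, if_neg (not_and_of_not_right _ h2)]
        simp
    · rw [if_neg h1]
      rw [if_neg (not_and_of_not_left _ h1)]
      simp
  exact_mod_cast hC

lemma S_scale (ψ : AddChar K ℂ) (n : ℕ) (A B : K) (u : Kˣ) :
    S ψ n (A * (u : K) ^ n) (B * ((u⁻¹ : Kˣ) : K) ^ n) = S ψ n A B := by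
  unfold S
  refine Fintype.sum_equiv (Equiv.mulLeft u) _ _ fun s => ?_
  congr 1
  simp only [Equiv.coe_mulLeft, Units.val_mul, mul_inv, mul_pow]
  ring

lemma card_orbit_le (n : ℕ) (hn : 0 < n) (A B : K) (h : A ≠ 0 ∨ B ≠ 0) (y : K × K) :
    (univ.filter (fun u : Kˣ => (A * (u : K) ^ n, B * ((u⁻¹ : Kˣ) : K) ^ n) = y)).card ≤ n := by
  rcases h with h | h
  · refine le_trans (Finset.card_le_card ?_) (card_pow_eq_le n hn (y.1 / A))
    intro u hu
    rw [Finset.mem_filter] at hu ⊢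
    refine ⟨hu.1, ?_⟩
    rw [← hu.2]
    field_simp
  · have : (univ.filter (fun u : Kˣ => (A * (u : K) ^ n, B * ((u⁻¹ : Kˣ) : K) ^ n) = y)).card
      ≤ (univ.filter (fun u : Kˣ => (u : K) ^ n = y.2 / B)).card := by
      refine Finset.card_le_card_of_injOn (fun u => u⁻¹) ?_ (fun a _ b _ hab => inv_injective hab)
      intro u hu
      simp only [Finset.coe_filter, Finset.mem_univ, true_and, Set.mem_ofPred_eq] at hu ⊢
      rw [← hu]
      field_simp
    exact this.trans (card_pow_eq_le n hn _)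

lemma norm_S_bound (ψ : AddChar K ℂ) (hψ : ψ.IsPrimitive) (n : ℕ) (hn : 0 < n) (A B : K)
    (h : A ≠ 0 ∨ B ≠ 0) :
    ‖S ψ n A B‖ ^ 4 ≤ 6 * n ^ 3 * (Fintype.card K : ℝ) ^ 3 := by
  have h1 : (Fintype.card Kˣ : ℝ) * ‖S ψ n A B‖ ^ 4 ≤ n * ∑ A : K, ∑ B : K, ‖S ψ n A B‖ ^ 4 := by
    calc (Fintype.card Kˣ : ℝ) * ‖S ψ n A B‖ ^ 4
        = ∑ u : Kˣ, ‖S ψ n (A * (u : K) ^ n) (B * ((u⁻¹ : Kˣ) : K) ^ n)‖ ^ 4 := by
          simp_rw [S_scale]
          simp [Finset.card_univ]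
      _ = ∑ y : K × K, ∑ u ∈ univ.filter
            (fun u : Kˣ => (A * (u : K) ^ n, B * ((u⁻¹ : Kˣ) : K) ^ n) = y),
            ‖S ψ n (A * (u : K) ^ n) (B * ((u⁻¹ : Kˣ) : K) ^ n)‖ ^ 4 := by
          rw [Finset.sum_fiberwise]
      _ ≤ ∑ y : K × K, (n : ℝ) * ‖S ψ n y.1 y.2‖ ^ 4 := by
          refine Finset.sum_le_sum fun y _ => ?_
          calc _ = ∑ _u ∈ (univ.filter
                (fun u : Kˣ => (A * (u : K) ^ n, B * ((u⁻¹ : Kˣ) : K) ^ n) = y)),
              ‖S ψ n y.1 y.2‖ ^ 4 := by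
                refine Finset.sum_congr rfl fun u hu => ?_
                rw [Finset.mem_filter] at hu
                rw [← hu.2]
            _ = (((univ.filter (fun u : Kˣ => (A * (u : K) ^ n,
                B * ((u⁻¹ : Kˣ) : K) ^ n) = y)).card : ℕ) : ℝ) * ‖S ψ n y.1 y.2‖ ^ 4 := by
                rw [Finset.sum_const, nsmul_eq_mul]
            _ ≤ _ := by
                refine mul_le_mul_of_nonneg_right ?_ (by positivity)
                exact_mod_cast card_orbit_le n hn A B h y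
      _ = n * ∑ A : K, ∑ B : K, ‖S ψ n A B‖ ^ 4 := by
          rw [← Finset.mul_sum, Fintype.sum_prod_type]
  rw [sum_norm_S_pow_four ψ hψ] at h1
  have h2 := N4_le (K := K) n hn
  have hcu : (Fintype.card Kˣ : ℝ) = Fintype.card K - 1 := by
    rw [Fintype.card_units, Nat.cast_sub Fintype.card_pos]; simp
  have hK2 : (2 : ℝ) ≤ Fintype.card K := by exact_mod_cast Fintype.one_lt_card (α := K)
  rw [hcu] at h1
  set q : ℝ := (Fintype.card K : ℝ) with hq
  have hnR : (0 : ℝ) < n := by exact_mod_cast hn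
  have h3 : (q - 1) * ‖S ψ n A B‖ ^ 4 ≤ 3 * n ^ 3 * q ^ 4 := by
    refine h1.trans ?_
    calc (n : ℝ) * (q ^ 2 * N4 K n) ≤ n * (q ^ 2 * (3 * n ^ 2 * q ^ 2)) := by
          refine mul_le_mul_of_nonneg_left ?_ hnR.le
          exact mul_le_mul_of_nonneg_left h2 (by positivity)
      _ = 3 * n ^ 3 * q ^ 4 := by ring
  have h4 : (q / 2) * ‖S ψ n A B‖ ^ 4 ≤ 3 * n ^ 3 * q ^ 4 := by
    refine le_trans ?_ h3
    exact mul_le_mul_of_nonneg_right (by linarith) (by positivity)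
  have hq0 : 0 < q := by linarith
  have h5 : q * (‖S ψ n A B‖ ^ 4) ≤ q * (6 * n ^ 3 * q ^ 3) := by nlinarith [h4]
  exact le_of_mul_le_mul_left h5 hq0

end moment

section equi

variable {K : Type*} [Field K] [Fintype K] [DecidableEq K] {p : ℕ} [Fact p.Prime]

omit [Fintype K] [DecidableEq K] in
lemma primitive_of_ne (τ : K →+ ZMod p) (hτ : τ ≠ 0) :
    ((ZMod.stdAddChar (N := p)).compAddMonoidHom τ).IsPrimitive := by
  apply AddChar.IsPrimitive.of_ne_one
  intro h
  apply hτ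
  ext x
  have hx : (ZMod.stdAddChar (N := p)) (τ x) = 1 := by
    have := DFunLike.congr_fun h x
    simpa using this
  rw [← (ZMod.stdAddChar (N := p)).map_zero_eq_one, ZMod.injective_stdAddChar.eq_iff] at hx
  simpa using hx

/-- the additive functional `(A, B) ↦ τ (A s ^ n + B s ^ (-n))` on a subgroup. -/
def evalHom (τ : K →+ ZMod p) (n : ℕ) (M : AddSubgroup (K × K)) (s : Kˣ) : M →+ ZMod p where
  toFun x := τ ((x : K × K).1 * (s : K) ^ n + (x : K × K).2 * ((s⁻¹ : Kˣ) : K) ^ n)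
  map_zero' := by simp
  map_add' x y := by
    rw [← map_add]
    congr 1
    simp only [AddSubgroup.coe_add, Prod.fst_add, Prod.snd_add]
    ring

theorem exists_unit (τ : K →+ ZMod p) (hτ : τ ≠ 0) (n : ℕ) (hn : 0 < n)
    (M : AddSubgroup (K × K)) (hM : 96 * n ^ 3 * (Nat.card M) ^ 4 < Fintype.card K)
    (f : M →+ ZMod p) : ∃ s : Kˣ, evalHom τ n M s = f := by
  classical
  by_contra hno
  push Not at hno
  set χ := (ZMod.stdAddChar (N := p)) with hχ
  set ψ := χ.compAddMonoidHom τ with hψdef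
  have hψ : ψ.IsPrimitive := primitive_of_ne τ hτ
  have h0 : ∀ s : Kˣ, ∑ x : M, χ ((evalHom τ n M s - f) x) = 0 := by
    intro s
    have hne : χ.compAddMonoidHom (evalHom τ n M s - f) ≠ 1 := by
      intro h
      apply hno s
      ext x
      have hx : χ ((evalHom τ n M s - f) x) = 1 := by
        have := DFunLike.congr_fun h x
        simpa using this
      rw [← χ.map_zero_eq_one, ZMod.injective_stdAddChar.eq_iff] at hx
      rw [AddMonoidHom.sub_apply, sub_eq_zero] at hx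
      exact hx
    exact AddChar.sum_eq_zero_of_ne_one hne
  have h1 : ∑ x : M, χ (-(f x)) * S ψ n (x : K × K).1 (x : K × K).2 = 0 := by
    calc ∑ x : M, χ (-(f x)) * S ψ n (x : K × K).1 (x : K × K).2
        = ∑ x : M, ∑ s : Kˣ, χ ((evalHom τ n M s - f) x) := by
          refine Finset.sum_congr rfl fun x _ => ?_
          unfold S
          rw [Finset.mul_sum]
          refine Finset.sum_congr rfl fun s _ => ?_
          rw [hψdef, AddChar.compAddMonoidHom_apply, ← AddChar.map_add_eq_mul]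
          congr 1
          rw [AddMonoidHom.sub_apply, neg_add_eq_sub]
          rfl
      _ = ∑ s : Kˣ, ∑ x : M, χ ((evalHom τ n M s - f) x) := Finset.sum_comm
      _ = 0 := Finset.sum_eq_zero fun s _ => h0 s
  rw [← Finset.add_sum_erase _ _ (Finset.mem_univ (0 : M))] at h1
  have hS0 : S ψ n ((0 : M) : K × K).1 ((0 : M) : K × K).2 = Fintype.card Kˣ := by
    unfold S
    simp [Finset.card_univ]
  rw [hS0] at h1
  set q : ℝ := (Fintype.card K : ℝ) with hq
  set D : ℝ := 6 * n ^ 3 * q ^ 3 with hD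
  have hD0 : 0 ≤ D := by positivity
  set c : ℝ := Real.sqrt (Real.sqrt D) with hc
  have hc4 : c ^ 4 = D := by
    have e1 : c ^ 2 = Real.sqrt D := Real.sq_sqrt (Real.sqrt_nonneg _)
    have e2 : Real.sqrt D ^ 2 = D := Real.sq_sqrt hD0
    calc c ^ 4 = (c ^ 2) ^ 2 := by ring
      _ = D := by rw [e1, e2]
  have hc0 : 0 ≤ c := Real.sqrt_nonneg _
  have h2 : (Fintype.card Kˣ : ℝ) ≤ Nat.card M * c := by
    have e : (Fintype.card Kˣ : ℂ) = -∑ x ∈ (Finset.univ.erase (0 : M)),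
        χ (-(f x)) * S ψ n (x : K × K).1 (x : K × K).2 := by
      have : χ (-(f 0)) = 1 := by simp
      rw [this, one_mul] at h1
      exact eq_neg_of_add_eq_zero_left h1
    calc (Fintype.card Kˣ : ℝ) = ‖(Fintype.card Kˣ : ℂ)‖ := by simp
      _ = ‖∑ x ∈ (Finset.univ.erase (0 : M)),
        χ (-(f x)) * S ψ n (x : K × K).1 (x : K × K).2‖ := by rw [e, norm_neg]
      _ ≤ ∑ x ∈ (Finset.univ.erase (0 : M)), c := by
          refine norm_sum_le_of_le _ fun x hx => ?_
          rw [norm_mul]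
          have hn1 : ‖χ (-(f x))‖ = 1 := AddChar.norm_apply χ _
          rw [hn1, one_mul]
          have hx0 : (x : K × K).1 ≠ 0 ∨ (x : K × K).2 ≠ 0 := by
            by_contra hcon
            push Not at hcon
            apply (Finset.mem_erase.1 hx).1
            ext
            · exact hcon.1
            · exact hcon.2
          have hb := norm_S_bound ψ hψ n hn _ _ hx0
          rw [← hq, ← hD, ← hc4] at hb
          exact (pow_le_pow_iff_left₀ (norm_nonneg _) hc0 (by norm_num)).1 hb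
      _ ≤ ∑ x : M, c := Finset.sum_le_sum_of_subset_of_nonneg (Finset.erase_subset _ _)
          (fun _ _ _ => hc0)
      _ = Nat.card M * c := by
          rw [Finset.sum_const, nsmul_eq_mul, Finset.card_univ, Nat.card_eq_fintype_card]
  have hcu : (Fintype.card Kˣ : ℝ) = q - 1 := by
    rw [Fintype.card_units, Nat.cast_sub Fintype.card_pos]; simp [hq]
  have hK2 : (2 : ℝ) ≤ q := by
    rw [hq]; exact_mod_cast Fintype.one_lt_card (α := K)
  have h3 : q / 2 ≤ Nat.card M * c := by rw [hcu] at h2; linarith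
  have h4 : (q / 2) ^ 4 ≤ (Nat.card M * c) ^ 4 :=
    pow_le_pow_left₀ (by linarith) h3 4
  rw [mul_pow, hc4, hD] at h4
  have h5 : q ^ 3 * q ≤ q ^ 3 * (96 * n ^ 3 * (Nat.card M) ^ 4) := by nlinarith [h4]
  have h6 : q ≤ 96 * n ^ 3 * (Nat.card M) ^ 4 :=
    le_of_mul_le_mul_left h5 (by positivity)
  have h7 : Fintype.card K ≤ 96 * n ^ 3 * (Nat.card M) ^ 4 := by
    rw [hq] at h6
    exact_mod_cast h6
  omega

end equi

section extraction

variable {K : Type*} [Field K] [Fintype K] [DecidableEq K] {p : ℕ} [Fact p.Prime]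
  [Algebra (ZMod p) K]

theorem coeff_zero {F' : Type*} [Field F'] {E : Type*} [AddCommGroup E] [Module F' E]
    (χ : AddChar (ZMod p) F') (hχ : χ ≠ 1) (hp : (p : F') ≠ 0)
    (τ : K →+ ZMod p) (hτ : τ ≠ 0) (n : ℕ) (hn : 0 < n) {ι : Type*} [Fintype ι]
    (A B : ι → K) (X : ι → E) (i0 : ι) (hA0 : A i0 = 0) (hB0 : B i0 = 0)
    (hne : ∀ i, i ≠ i0 → A i ≠ 0 ∨ B i ≠ 0)
    (hcard : 96 * n ^ 3 * (p ^ Fintype.card ι) ^ 4 < Fintype.card K)
    (hrel : ∀ s : Kˣ, ∑ i, χ (τ (A i * (s : K) ^ n + B i * ((s⁻¹ : Kˣ) : K) ^ n)) • X i = 0) :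
    X i0 = 0 := by
  classical
  let g : (ι → ZMod p) →ₗ[ZMod p] K × K := Fintype.linearCombination (ZMod p) (fun i => (A i, B i))
  let M : Submodule (ZMod p) (K × K) := LinearMap.range g
  have hmem : ∀ i, (A i, B i) ∈ M := by
    intro i
    refine ⟨Pi.single i 1, ?_⟩
    simp [g, Fintype.linearCombination_apply_single]
  have hMcard : Nat.card M ≤ p ^ Fintype.card ι := by
    have h1 : Nat.card M ≤ Nat.card (ι → ZMod p) :=
      Nat.card_le_card_of_surjective g.rangeRestrict g.surjective_rangeRestrict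
    have h2 : Nat.card (ι → ZMod p) = p ^ Fintype.card ι := by
      rw [Nat.card_fun, Nat.card_zmod, Nat.card_eq_fintype_card]
    omega
  have hM : 96 * n ^ 3 * (Nat.card M.toAddSubgroup) ^ 4 < Fintype.card K := by
    refine lt_of_le_of_lt ?_ hcard
    exact Nat.mul_le_mul_left _ (Nat.pow_le_pow_left hMcard 4)
  have hex : ∀ f : Module.Dual (ZMod p) M, ∃ s : Kˣ, ∀ x : M,
      τ ((x : K × K).1 * (s : K) ^ n + (x : K × K).2 * ((s⁻¹ : Kˣ) : K) ^ n) = f x := by
    intro f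
    obtain ⟨s, hs⟩ := exists_unit τ hτ n hn M.toAddSubgroup hM f.toAddMonoidHom
    refine ⟨s, fun x => ?_⟩
    exact DFunLike.congr_fun hs x
  have : Finite (Module.Dual (ZMod p) M) := DFunLike.finite _
  have : Fintype (Module.Dual (ZMod p) M) := Fintype.ofFinite _
  have hsum : ∑ i, (∑ f : Module.Dual (ZMod p) M, χ (f ⟨(A i, B i), hmem i⟩)) • X i = 0 := by
    simp_rw [Finset.sum_smul]
    rw [Finset.sum_comm]
    refine Finset.sum_eq_zero fun f _ => ?_
    obtain ⟨s, hs⟩ := hex f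
    rw [← hrel s]
    refine Finset.sum_congr rfl fun i _ => ?_
    rw [← hs]
  have hz : ∀ i, i ≠ i0 → ∑ f : Module.Dual (ZMod p) M, χ (f ⟨(A i, B i), hmem i⟩) = 0 := by
    intro i hi
    let Ψ : AddChar (Module.Dual (ZMod p) M) F' :=
      { toFun := fun f => χ (f ⟨(A i, B i), hmem i⟩)
        map_zero_eq_one' := by simp
        map_add_eq_mul' := by
          intro a b
          rw [LinearMap.add_apply, AddChar.map_add_eq_mul] }
    have hΨ : Ψ ≠ 1 := by
      intro h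
      have hx : (⟨(A i, B i), hmem i⟩ : M) = 0 := by
        rw [← Module.forall_dual_apply_eq_zero_iff (ZMod p)]
        intro φ
        by_contra hφ
        apply hχ
        ext y
        have := DFunLike.congr_fun h ((y * (φ ⟨(A i, B i), hmem i⟩)⁻¹) • φ)
        simp only [AddChar.one_apply] at this
        change χ (((y * (φ ⟨(A i, B i), hmem i⟩)⁻¹) • φ) ⟨(A i, B i), hmem i⟩) = 1 at this
        rw [LinearMap.smul_apply, smul_eq_mul, mul_assoc, inv_mul_cancel₀ hφ, mul_one] at this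
        simpa using this
      have hx2 : (A i, B i) = (0 : K × K) := congrArg Subtype.val hx
      rcases hne i hi with h' | h'
      · exact h' (congrArg Prod.fst hx2)
      · exact h' (congrArg Prod.snd hx2)
    exact AddChar.sum_eq_zero_of_ne_one hΨ
  rw [Finset.sum_eq_single i0 (fun i _ hi => by rw [hz i hi, zero_smul])
    (fun h => absurd (Finset.mem_univ _) h)] at hsum
  have h0 : (⟨(A i0, B i0), hmem i0⟩ : M) = 0 := by
    ext <;> simp [hA0, hB0]
  rw [h0] at hsum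
  simp only [map_zero, AddChar.map_zero_eq_one, Finset.sum_const, Finset.card_univ,
    nsmul_eq_mul, mul_one] at hsum
  have hc : (Fintype.card (Module.Dual (ZMod p) M) : F') ≠ 0 := by
    rw [Module.card_eq_pow_finrank (K := ZMod p) (V := Module.Dual (ZMod p) M), ZMod.card]
    push_cast
    exact pow_ne_zero _ hp
  exact (smul_eq_zero.1 hsum).resolve_left hc

end extraction

end Pool.Agent.Lib.MP_467141_al
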