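import Pool.Agent.Lib.MP_467141_al.Defs
import Pool.Agent.Lib.MP_467141_al.CompFactor

/-!
# Reduction of the composition factor statement to a linear independence statement
-/

namespace Pool.Agent.Lib.MP_467141_al

open scoped TensorProduct

universe u v w

section

variable {F H V W : Type*} [Field F] [Group H] [AddCommGroup V] [Module F V]
  [AddCommGroup W] [Module F W]

lemma isCompositionFactor_of_isSubquot (ρ : Representation F H V) (σ : Representation F H W)
    (hσ : σ.IsIrreducible) (h : IsSubquot ρ σ) : IsCompositionFactor ρ σ := by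
  obtain ⟨A, f, hf, hact⟩ := h
  let f' : A.toRepresentation.IntertwiningMap σ :=
    ⟨f, by intro g; ext x; exact hact g x⟩
  let B : Subrepresentation ρ :=
    { toSubmodule := (LinearMap.ker f).map A.toSubmodule.subtype
      apply_mem_toSubmodule := by
        rintro g _ ⟨x, hx, rfl⟩
        refine ⟨A.toRepresentation g x, ?_, rfl⟩
        rw [SetLike.mem_coe, LinearMap.mem_ker] at hx ⊢
        rw [hact, hx, map_zero] }
  refine ⟨hσ, A, B, f', ?_, hf, ?_⟩
  · rintro _ ⟨x, _, rfl⟩
    exact x.2
  · intro x
    constructor
    · intro hx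
      exact ⟨x, hx, rfl⟩
    · rintro ⟨y, hy, hyx⟩
      have : y = x := Subtype.ext hyx
      rw [← this]
      exact hy

end

lemma trivial_dim {F : Type*} {G V : Type*} [Field F] [Group G] [AddCommGroup V] [Module F V]
    [FiniteDimensional F V] (ρ : Representation F G V) (hρ : ρ.IsIrreducible)
    (h : ∀ g, ρ g = 1) : Module.finrank F V ≤ 1 := by
  by_contra hcon
  push Not at hcon
  have hnt : Nontrivial V := Module.nontrivial_of_finrank_pos (R := F) (by omega)
  obtain ⟨v, hv⟩ := exists_ne (0 : V)
  let B : Subrepresentation ρ :=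
    { toSubmodule := Submodule.span F {v}
      apply_mem_toSubmodule := by
        intro g x hx
        rw [h g]
        exact hx }
  rcases eq_bot_or_eq_top B with hB | hB
  · have h1 : v ∈ B.toSubmodule := Submodule.mem_span_singleton_self v
    rw [hB] at h1
    exact hv h1
  · have h1 : Submodule.span F {v} = ⊤ := by
      have : B.toSubmodule = (⊤ : Subrepresentation ρ).toSubmodule := by rw [hB]
      exact this
    have h2 : Module.finrank F (Submodule.span F {v}) = 1 := finrank_span_singleton hv
    rw [h1, finrank_top] at h2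
    omega

/-- The reduction. -/
theorem reduction {H G : Type*} [Group H] [Fintype H] [Group G] (j : H →* G) (p : ℕ)
    [hpf : Fact p.Prime] {F : Type u} [Field F] (hF : (p : F) ≠ 0) {V : Type v} [AddCommGroup V]
    [Module F V] [FiniteDimensional F V] (ρ : Representation F G V) (hρ : ρ.IsIrreducible)
    (hd : 1 < Module.finrank F V)
    (key : ∀ (F' : Type u) [Field F'] (𝓐 : Type (max u v)) [Ring 𝓐] [Algebra F' 𝓐]
      (χ : AddChar (ZMod p) F'), χ ≠ 1 → (p : F') ≠ 0 → ∀ (R : G →* 𝓐), (∃ g, R g ≠ 1) →
      ∀ (c : H → F'), ∑ x, c x • R (j x) = 0 → c 1 = 0)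
    {W : Type w} [AddCommGroup W] [Module F W] (σ : Representation F H W)
    (hσ : σ.IsIrreducible) : IsCompositionFactor (ρ.comp j) σ := by
  classical
  apply isCompositionFactor_of_isSubquot _ _ hσ
  apply isSubquot_of_faithful
  intro a ha
  by_contra hane
  obtain ⟨x0, hx0⟩ : ∃ x, a.coeff x ≠ 0 := by
    by_contra hcon
    push Not at hcon
    exact hane (MonoidAlgebra.coeff_inj.1 (Finsupp.ext hcon))
  -- the cyclotomic extension
  have hring : ringChar F ≠ ringChar (ZMod p) := by
    rw [ZMod.ringChar_zmod_n]
    intro h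
    apply hF
    rw [← h]
    exact ringChar.Nat.cast_ringChar
  let prim := AddChar.FiniteField.primitiveChar (ZMod p) F hring
  let F' := CyclotomicField prim.n F
  let χ : AddChar (ZMod p) F' := prim.char
  have hχ : χ ≠ 1 := by
    have h1 := prim.prim one_ne_zero
    rw [AddChar.mulShift_one] at h1
    exact h1
  have hp' : (p : F') ≠ 0 := by
    rw [← map_natCast (algebraMap F F')]
    intro h
    apply hF
    exact (map_eq_zero (algebraMap F F')).1 h
  let 𝓐 := F' ⊗[F] (Module.End F V)
  let inc : Module.End F V →ₐ[F] 𝓐 := Algebra.TensorProduct.includeRight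
  have hinc : Function.Injective inc :=
    Algebra.TensorProduct.includeRight_injective (algebraMap F F').injective
  let R : G →* 𝓐 := (inc : Module.End F V →* 𝓐).comp ρ
  have hR : ∃ g, R g ≠ 1 := by
    by_contra hcon
    push Not at hcon
    have h1 : ∀ g, ρ g = 1 := by
      intro g
      apply hinc
      rw [map_one]
      exact hcon g
    have := trivial_dim ρ hρ h1
    omega
  let a' : MonoidAlgebra F H := MonoidAlgebra.of F H x0⁻¹ * a
  have ha' : Representation.asAlgebraHom (ρ.comp j : Representation F H V) a' = 0 := by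
    simp only [a']
    rw [map_mul, ha, mul_zero]
  have ha'1 : a'.coeff 1 = a.coeff x0 := by
    simp only [a', MonoidAlgebra.of_apply]
    rw [MonoidAlgebra.coeff_single_mul_apply]
    simp
  have hsum : ∑ x, a'.coeff x • ρ (j x) = 0 := by
    rw [← ha', Representation.asAlgebraHom_def, MonoidAlgebra.lift_apply,
      Finsupp.sum_fintype]
    · rfl
    · intro i
      simp
  have hfin := key F' 𝓐 χ hχ hp' R hR (fun x => algebraMap F F' (a'.coeff x)) (by
    have h2 : inc (∑ x, a'.coeff x • ρ (j x)) =
        ∑ x, algebraMap F F' (a'.coeff x) • R (j x) := by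
      rw [map_sum]
      refine Finset.sum_congr rfl fun x _ => ?_
      rw [map_smul, algebraMap_smul]
      rfl
    rw [← h2, hsum, map_zero])
  rw [map_eq_zero, ha'1] at hfin
  exact hx0 hfin

end Pool.Agent.Lib.MP_467141_al
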