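import Mathlib

/-!
# Block unipotent elements of `SL (Unit ⊕ Fin (r+1))` and the position argument
-/

namespace Pool.Agent.Lib.MP_467141_al

open Matrix Matrix.SpecialLinearGroup

/-- index set with one distinguished element -/
abbrev Ix (r : ℕ) := Unit ⊕ Fin (r + 1)

section blocks

variable {r : ℕ} {K : Type*} [Field K]

/-- lower unipotent element -/
def um (w : Fin (r + 1) → K) : SpecialLinearGroup (Ix r) K :=
  ⟨fromBlocks 1 0 (replicateCol Unit w) 1, by simp⟩

/-- upper unipotent element -/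
def up (w : Fin (r + 1) → K) : SpecialLinearGroup (Ix r) K :=
  ⟨fromBlocks 1 (replicateRow Unit w) 0 1, by simp⟩

/-- one parameter torus -/
def tor (s : Kˣ) : SpecialLinearGroup (Ix r) K :=
  ⟨fromBlocks (((s : K) ^ (r + 1)) • 1) 0 0 (((s⁻¹ : Kˣ) : K) • 1), by
    rw [det_fromBlocks_zero₁₂, det_smul, det_smul]
    simp⟩

lemma um_coe (w : Fin (r + 1) → K) :
    (um w : Matrix (Ix r) (Ix r) K) = fromBlocks 1 0 (replicateCol Unit w) 1 := rfl

lemma up_coe (w : Fin (r + 1) → K) :
    (up w : Matrix (Ix r) (Ix r) K) = fromBlocks 1 (replicateRow Unit w) 0 1 := rfl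

lemma tor_coe (s : Kˣ) : ((tor s : SpecialLinearGroup (Ix r) K) : Matrix (Ix r) (Ix r) K) =
    fromBlocks (((s : K) ^ (r + 1)) • 1) 0 0 (((s⁻¹ : Kˣ) : K) • 1) := rfl

lemma um_add (v w : Fin (r + 1) → K) : um (v + w) = um v * um w := by
  apply Subtype.ext
  rw [coe_mul, um_coe, um_coe, um_coe, fromBlocks_multiply]
  simp [replicateCol_add]

lemma up_add (v w : Fin (r + 1) → K) : up (v + w) = up v * up w := by
  apply Subtype.ext
  rw [coe_mul, up_coe, up_coe, up_coe, fromBlocks_multiply]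
  simp [replicateRow_add, add_comm]

lemma um_zero : um (0 : Fin (r + 1) → K) = 1 := by
  apply Subtype.ext
  rw [um_coe, coe_one]
  simp

lemma up_zero : up (0 : Fin (r + 1) → K) = 1 := by
  apply Subtype.ext
  rw [up_coe, coe_one]
  simp

lemma um_neg (v : Fin (r + 1) → K) : um (-v) = (um v)⁻¹ := by
  rw [eq_inv_iff_mul_eq_one, ← um_add, neg_add_cancel, um_zero]

lemma up_neg (v : Fin (r + 1) → K) : up (-v) = (up v)⁻¹ := by
  rw [eq_inv_iff_mul_eq_one, ← up_add, neg_add_cancel, up_zero]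

lemma tor_um (s : Kˣ) (w : Fin (r + 1) → K) :
    (tor s)⁻¹ * um w * tor s = um ((s : K) ^ (r + 2) • w) := by
  rw [mul_assoc, inv_mul_eq_iff_eq_mul]
  apply Subtype.ext
  rw [coe_mul, coe_mul, um_coe, um_coe, tor_coe, fromBlocks_multiply, fromBlocks_multiply]
  congr 1
  · simp
  · simp
  · ext i j
    simp only [Matrix.mul_smul, Matrix.mul_one, Matrix.mul_zero, add_zero, Matrix.smul_apply,
      replicateCol_apply, smul_eq_mul, Matrix.smul_mul, Matrix.one_mul, zero_add, Pi.smul_apply]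
    have : (s : K) ≠ 0 := s.ne_zero
    rw [Units.val_inv_eq_inv_val]
    field_simp
    ring
  · simp

lemma tor_up (s : Kˣ) (w : Fin (r + 1) → K) :
    (tor s)⁻¹ * up w * tor s = up (((s⁻¹ : Kˣ) : K) ^ (r + 2) • w) := by
  rw [mul_assoc, inv_mul_eq_iff_eq_mul]
  apply Subtype.ext
  rw [coe_mul, coe_mul, up_coe, up_coe, tor_coe, fromBlocks_multiply, fromBlocks_multiply]
  congr 1
  · simp
  · ext i j
    simp only [Matrix.mul_smul, Matrix.mul_one, Matrix.mul_zero, add_zero, Matrix.smul_apply,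
      replicateRow_apply, smul_eq_mul, Matrix.smul_mul, Matrix.one_mul, zero_add, Pi.smul_apply]
    have : (s : K) ≠ 0 := s.ne_zero
    rw [Units.val_inv_eq_inv_val, inv_pow]
    field_simp
    ring
  · simp
  · simp

lemma tor_comm (s : Kˣ) (l : SpecialLinearGroup (Ix r) K)
    (h1 : ∀ j, l (Sum.inl ()) (Sum.inr j) = 0) (h2 : ∀ j, l (Sum.inr j) (Sum.inl ()) = 0) :
    (tor s)⁻¹ * l * tor s = l := by
  rw [mul_assoc, inv_mul_eq_iff_eq_mul]
  apply Subtype.ext
  have hl : (l : Matrix (Ix r) (Ix r) K) =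
      fromBlocks (l : Matrix (Ix r) (Ix r) K).toBlocks₁₁ 0 0
        (l : Matrix (Ix r) (Ix r) K).toBlocks₂₂ := by
    conv_lhs => rw [← fromBlocks_toBlocks (l : Matrix (Ix r) (Ix r) K)]
    congr 1
    · ext ⟨⟩ j
      exact h1 j
    · ext j ⟨⟩
      exact h2 j
  rw [coe_mul, coe_mul, hl, tor_coe, fromBlocks_multiply, fromBlocks_multiply]
  simp

/-- Levi factor of an element of the big cell -/
def lev (g : SpecialLinearGroup (Ix r) K) : SpecialLinearGroup (Ix r) K :=
  um (-(fun i => g (Sum.inr i) (Sum.inl ()) / g (Sum.inl ()) (Sum.inl ()))) * g *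
    up (-(fun i => g (Sum.inl ()) (Sum.inr i) / g (Sum.inl ()) (Sum.inl ())))

lemma ldu (g : SpecialLinearGroup (Ix r) K) :
    g = um (fun i => g (Sum.inr i) (Sum.inl ()) / g (Sum.inl ()) (Sum.inl ())) * lev g *
      up (fun i => g (Sum.inl ()) (Sum.inr i) / g (Sum.inl ()) (Sum.inl ())) := by
  unfold lev
  rw [um_neg, up_neg]
  group

lemma lev_inl_inr (g : SpecialLinearGroup (Ix r) K) (hg : g (Sum.inl ()) (Sum.inl ()) ≠ 0)
    (j : Fin (r + 1)) : lev g (Sum.inl ()) (Sum.inr j) = 0 := by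
  unfold lev
  rw [coe_mul, coe_mul, um_coe, up_coe, Matrix.mul_apply, Fintype.sum_sum_type]
  simp only [Finset.univ_unique, Finset.sum_singleton, fromBlocks_apply₁₂, fromBlocks_apply₂₂,
    Matrix.mul_apply, Fintype.sum_sum_type, fromBlocks_apply₁₁]
  simp [Matrix.one_apply]
  field_simp
  ring

lemma lev_inr_inl (g : SpecialLinearGroup (Ix r) K) (hg : g (Sum.inl ()) (Sum.inl ()) ≠ 0)
    (j : Fin (r + 1)) : lev g (Sum.inr j) (Sum.inl ()) = 0 := by
  unfold lev
  rw [coe_mul, coe_mul, um_coe, up_coe, Matrix.mul_apply, Fintype.sum_sum_type]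
  simp only [Finset.univ_unique, Finset.sum_singleton, fromBlocks_apply₂₂,
    Matrix.mul_apply, Fintype.sum_sum_type, fromBlocks_apply₁₁, fromBlocks_apply₂₁]
  simp [Matrix.one_apply]
  field_simp
  ring

end blocks

section position

open Polynomial

variable {r : ℕ} {k K : Type*} [Field k] [Field K] [Algebra k K]

/-- the polynomial `∑_b h_{ab} X^b` (the distinguished index has exponent `0`). -/
noncomputable def P (h : Matrix (Ix r) (Ix r) k) (a : Ix r) : k[X] :=
  C (h a (Sum.inl ())) + ∑ j : Fin (r + 1), C (h a (Sum.inr j)) * X ^ ((j : ℕ) + 1)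

lemma P_coeff_zero (h : Matrix (Ix r) (Ix r) k) (a : Ix r) :
    (P h a).coeff 0 = h a (Sum.inl ()) := by
  unfold P
  rw [coeff_add, finsetSum_coeff, coeff_C_zero]
  simp

lemma P_coeff_succ (h : Matrix (Ix r) (Ix r) k) (a : Ix r) (j : Fin (r + 1)) :
    (P h a).coeff ((j : ℕ) + 1) = h a (Sum.inr j) := by
  unfold P
  rw [coeff_add, finsetSum_coeff, coeff_C_of_ne_zero (Nat.succ_ne_zero _), zero_add]
  simp only [coeff_C_mul_X_pow, Nat.add_right_cancel_iff]
  rw [Finset.sum_eq_single j]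
  · simp
  · intro i _ hi
    rw [if_neg]
    intro h
    exact hi (Fin.ext h.symm)
  · intro h
    exact absurd (Finset.mem_univ _) h

lemma P_natDegree (h : Matrix (Ix r) (Ix r) k) (a : Ix r) : (P h a).natDegree ≤ r + 1 := by
  unfold P
  refine natDegree_add_le_of_degree_le ?_ ?_
  · rw [natDegree_C]; omega
  · refine natDegree_sum_le_of_forall_le _ _ fun j _ => ?_
    refine (natDegree_C_mul_X_pow_le _ _).trans ?_
    have := j.2
    omega

lemma P_ne_zero (h : Matrix (Ix r) (Ix r) k) (hdet : h.det ≠ 0) (a : Ix r) : P h a ≠ 0 := by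
  intro h0
  apply hdet
  apply Matrix.det_eq_zero_of_row_eq_zero a
  rintro (⟨⟩ | j)
  · rw [← P_coeff_zero h a, h0, coeff_zero]
  · rw [← P_coeff_succ h a j, h0, coeff_zero]

lemma scalar_of_P (h : Matrix (Ix r) (Ix r) k)
    (hP : ∀ i : Fin (r + 1), P h (Sum.inr i) = X ^ ((i : ℕ) + 1) * P h (Sum.inl ())) :
    h = scalar (Ix r) (h (Sum.inl ()) (Sum.inl ())) := by
  have h1 : ∀ j : Fin (r + 1), h (Sum.inl ()) (Sum.inr j) = 0 := by
    intro j
    have e := hP (Fin.last r)
    have e2 : (P h (Sum.inr (Fin.last r))).coeff (((j : ℕ) + 1) + ((Fin.last r : ℕ) + 1)) =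
        (P h (Sum.inl ())).coeff ((j : ℕ) + 1) := by
      rw [e, mul_comm, coeff_mul_X_pow]
    rw [P_coeff_succ, coeff_eq_zero_of_natDegree_lt] at e2
    · exact e2.symm
    · refine lt_of_le_of_lt (P_natDegree _ _) ?_
      rw [Fin.val_last]
      omega
  have h2 : P h (Sum.inl ()) = C (h (Sum.inl ()) (Sum.inl ())) := by
    conv_lhs => unfold P
    simp [h1]
  ext a b
  rcases a with ⟨⟩ | i
  · rcases b with ⟨⟩ | j
    · simp
    · rw [h1]; simp
  · have e := hP i
    rw [h2] at e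
    rcases b with ⟨⟩ | j
    · rw [← P_coeff_zero h (Sum.inr i), e, mul_comm, coeff_C_mul, coeff_X_pow, if_neg (by omega)]
      simp
    · rw [← P_coeff_succ h (Sum.inr i) j, e, mul_comm, coeff_C_mul, coeff_X_pow]
      by_cases hij : j = i
      · subst hij
        simp
      · have h3 : ¬ ((j : ℕ) + 1 = (i : ℕ) + 1) := by
          intro h; exact hij (Fin.ext (by omega))
        rw [if_neg h3, scalar_apply, diagonal_apply_ne]
        · simp
        · intro h
          exact hij (Sum.inr_injective h).symm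

lemma blocks_eq_zero (N : ℕ) (m : ℕ) (Q : Fin m → k[X]) (hQ : ∀ i, (Q i).natDegree < N)
    (hsum : ∑ i : Fin m, X ^ (N * (i : ℕ)) * Q i = 0) : ∀ i, Q i = 0 := by
  intro i
  ext j
  rw [coeff_zero]
  by_cases hj : j < N
  · have h1 : (∑ i : Fin m, X ^ (N * (i : ℕ)) * Q i).coeff (N * (i : ℕ) + j) = (Q i).coeff j := by
      rw [finsetSum_coeff, Finset.sum_eq_single i]
      · rw [mul_comm, add_comm, coeff_mul_X_pow]
      · intro i' _ hi'
        rw [mul_comm (X ^ _), coeff_mul_X_pow']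
        split_ifs with hle
        · apply coeff_eq_zero_of_natDegree_lt
          refine lt_of_lt_of_le (hQ i') ?_
          have hne : (i' : ℕ) ≠ (i : ℕ) := fun h => hi' (Fin.ext h)
          have hlt : (i' : ℕ) < i := by
            by_contra hcon
            have h2 : (i : ℕ) + 1 ≤ i' := by omega
            have h3 : N * ((i : ℕ) + 1) ≤ N * i' := Nat.mul_le_mul_left _ h2
            rw [Nat.mul_add] at h3
            omega
          have h3 : N * ((i' : ℕ) + 1) ≤ N * i := Nat.mul_le_mul_left _ hlt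
          rw [Nat.mul_add] at h3
          omega
        · rfl
      · intro h
        exact absurd (Finset.mem_univ _) h
    rw [← h1, hsum, coeff_zero]
  · exact coeff_eq_zero_of_natDegree_lt (lt_of_lt_of_le (hQ i) (not_lt.1 hj))

lemma aeval_ne_zero (θ : K) (m : ℕ) (hθ : ∀ Q : k[X], Q ≠ 0 → Q.natDegree < m → aeval θ Q ≠ 0)
    (h : Matrix (Ix r) (Ix r) k) (hh : ∀ c : k, h ≠ scalar (Ix r) c)
    (hm : 2 * (r + 2) * (r + 1) ≤ m) :
    ∑ i : Fin (r + 1), θ ^ ((2 * (r + 2)) * (i : ℕ)) *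
      (aeval θ (P h (Sum.inr i)) - θ ^ ((i : ℕ) + 1) * aeval θ (P h (Sum.inl ()))) ≠ 0 := by
  set N := 2 * (r + 2) with hN
  let Q : Fin (r + 1) → k[X] := fun i => P h (Sum.inr i) - X ^ ((i : ℕ) + 1) * P h (Sum.inl ())
  have hQ : ∀ i, (Q i).natDegree < N := by
    intro i
    have h1 : (Q i).natDegree ≤ (r + 1) + (r + 1) := by
      refine (natDegree_sub_le _ _).trans (max_le ?_ ?_)
      · exact (P_natDegree _ _).trans (by omega)
      · refine natDegree_mul_le.trans ?_
        have h2 : (X ^ ((i : ℕ) + 1) : k[X]).natDegree ≤ r + 1 := by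
          refine (natDegree_X_pow_le _).trans ?_
          have := i.2
          omega
        exact add_le_add h2 (P_natDegree _ _)
    omega
  have hne : ∑ i : Fin (r + 1), X ^ (N * (i : ℕ)) * Q i ≠ 0 := by
    intro h0
    have h1 := blocks_eq_zero N (r + 1) Q hQ h0
    exact hh _ (scalar_of_P h fun i => sub_eq_zero.1 (h1 i))
  have hdeg : (∑ i : Fin (r + 1), X ^ (N * (i : ℕ)) * Q i).natDegree < m := by
    have h1 : (∑ i : Fin (r + 1), X ^ (N * (i : ℕ)) * Q i).natDegree ≤ N * r + (N - 1) := by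
      refine natDegree_sum_le_of_forall_le _ _ fun i _ => ?_
      refine natDegree_mul_le.trans ?_
      have h2 : (X ^ (N * (i : ℕ)) : k[X]).natDegree ≤ N * r := by
        refine (natDegree_X_pow_le _).trans ?_
        have := i.2
        exact Nat.mul_le_mul_left _ (by omega)
      have h3 := hQ i
      have h4 : (Q i).natDegree ≤ N - 1 := by omega
      exact add_le_add h2 h4
    have h5 : N * (r + 1) = N * r + N := by ring
    have h6 : 0 < N := by omega
    omega
  have := hθ _ hne hdeg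
  rw [map_sum] at this
  simpa [Q] using this

/-- first column entries of `um (-v) * g * um v`. -/
lemma conj_inl (v : Fin (r + 1) → K) (g : SpecialLinearGroup (Ix r) K) :
    ((um (-v) * g * um v : SpecialLinearGroup (Ix r) K) : Matrix (Ix r) (Ix r) K)
        (Sum.inl ()) (Sum.inl ()) =
      g (Sum.inl ()) (Sum.inl ()) + ∑ j, g (Sum.inl ()) (Sum.inr j) * v j := by
  rw [Matrix.SpecialLinearGroup.coe_mul, Matrix.SpecialLinearGroup.coe_mul, um_coe, um_coe, Matrix.mul_apply,
    Fintype.sum_sum_type]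
  simp [Matrix.mul_apply]

lemma conj_inr (v : Fin (r + 1) → K) (g : SpecialLinearGroup (Ix r) K) (i : Fin (r + 1)) :
    ((um (-v) * g * um v : SpecialLinearGroup (Ix r) K) : Matrix (Ix r) (Ix r) K)
        (Sum.inr i) (Sum.inl ()) =
      (g (Sum.inr i) (Sum.inl ()) + ∑ j, g (Sum.inr i) (Sum.inr j) * v j) -
      v i * (g (Sum.inl ()) (Sum.inl ()) + ∑ j, g (Sum.inl ()) (Sum.inr j) * v j) := by
  rw [Matrix.SpecialLinearGroup.coe_mul, Matrix.SpecialLinearGroup.coe_mul, um_coe, um_coe, Matrix.mul_apply,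
    Fintype.sum_sum_type]
  simp only [Matrix.mul_apply, Fintype.sum_sum_type, Matrix.one_apply, fromBlocks_apply₁₁,
    fromBlocks_apply₂₁, fromBlocks_apply₂₂, Finset.univ_unique, Finset.sum_singleton,
    replicateCol_apply, Pi.neg_apply, if_true]
  simp only [ite_mul, one_mul, zero_mul, Finset.sum_ite_eq, Finset.mem_univ, if_true, mul_one,
    add_mul, Finset.sum_add_distrib]
  have : ∀ j, -v i * g (Sum.inl ()) (Sum.inr j) * v j =
    - (v i * (g (Sum.inl ()) (Sum.inr j) * v j)) := fun j => by ring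
  simp only [this, Finset.sum_neg_distrib]
  rw [mul_add, Finset.mul_sum]
  ring

lemma aeval_P (θ : K) (h : Matrix (Ix r) (Ix r) k) (a : Ix r) : aeval θ (P h a) =
      algebraMap k K (h a (Sum.inl ())) +
      ∑ j : Fin (r + 1), algebraMap k K (h a (Sum.inr j)) * θ ^ ((j : ℕ) + 1) := by
  unfold P
  simp

end position

end Pool.Agent.Lib.MP_467141_al
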