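import Pool.Agent.Lib.MP_467141_al.Abs
import Pool.Agent.Lib.MP_467141_al.Gen
import Pool.Agent.Lib.MP_467141_al.SLn

/-!
# The annihilator argument for `SL`
-/

namespace Pool.Agent.Lib.MP_467141_al

open Matrix Matrix.SpecialLinearGroup Finset

variable {r : ℕ} {K : Type*} [Field K]

lemma um_single (y : K) : (um (Pi.single 0 y) : SpecialLinearGroup (Ix r) K) =
    transvection (i := Sum.inr 0) (j := Sum.inl ()) (by simp) y := by
  apply Subtype.ext
  rw [um_coe, transvection_coe]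
  ext a b
  rcases a with ⟨⟩ | a <;> rcases b with ⟨⟩ | b
  · simp
  · simp
  · by_cases ha : a = 0
    · subst ha
      simp
    · have ha' : ¬ (0 = a) := fun h => ha h.symm
      simp [ha, ha']
  · simp [Matrix.one_apply]

/-- the block diagonal element with lower block `1 + e₀ κᵀ` (for `κ 0 = 0`). -/
def blk (κ : Fin (r + 1) → K) (h0 : κ 0 = 0) : SpecialLinearGroup (Ix r) K :=
  ⟨fromBlocks 1 0 0 (1 + vecMulVec (Pi.single 0 1) κ), by
    rw [det_fromBlocks_zero₁₂, det_one, one_mul]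
    rw [vecMulVec_eq Unit, det_one_add_replicateCol_mul_replicateRow]
    simp [h0]⟩

lemma blk_mul_um (κ : Fin (r + 1) → K) (h0 : κ 0 = 0) (w : Fin (r + 1) → K) :
    blk κ h0 * um w = um (w + (κ ⬝ᵥ w) • Pi.single 0 1) * blk κ h0 := by
  apply Subtype.ext
  rw [Matrix.SpecialLinearGroup.coe_mul, Matrix.SpecialLinearGroup.coe_mul, um_coe, um_coe]
  change fromBlocks 1 0 0 (1 + vecMulVec (Pi.single 0 1) κ) * _ =
    _ * fromBlocks 1 0 0 (1 + vecMulVec (Pi.single 0 1) κ)
  rw [fromBlocks_multiply, fromBlocks_multiply]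
  congr 1
  · simp
  · simp
  · ext i j
    rw [Matrix.add_mul, Matrix.one_mul, Matrix.zero_mul, zero_add, Matrix.add_apply,
      Matrix.mul_apply, Matrix.mul_one, Matrix.mul_zero, add_zero]
    simp only [vecMulVec_apply, replicateCol_apply, Pi.add_apply, Pi.smul_apply, smul_eq_mul,
      dotProduct, Finset.sum_mul]
    congr 1
    refine Finset.sum_congr rfl fun x _ => ?_
    ring
  · simp

section main

variable {k : Type*} [Field k] [Fintype K] [DecidableEq K] [Algebra k K] {p : ℕ} [Fact p.Prime]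
  [Algebra (ZMod p) K] {F' : Type*} [Field F'] {𝓐 : Type*} [Ring 𝓐] [Algebra F' 𝓐]

lemma exists_E_zero_ne (ψ : AddChar K F') (hψ : ψ.IsPrimitive) (hp : (p : F') ≠ 0)
    (R : SpecialLinearGroup (Ix r) K →* 𝓐) (hR : ∃ g, R g ≠ 1) :
    ∃ b : Fin (r + 1) → K, b 0 ≠ 0 ∧ E ψ R um b ≠ 0 := by
  by_contra hcon
  push Not at hcon
  have h1 : ∀ y : K, R (um (Pi.single 0 y)) = 1 := by
    intro y
    have h2 : R (um (Pi.single 0 y)) * ∑ b : Fin (r + 1) → K, E ψ R um b =
        ∑ b : Fin (r + 1) → K, E ψ R um b := by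
      rw [Finset.mul_sum]
      refine Finset.sum_congr rfl fun b _ => ?_
      rw [R_mul_E ψ R um um_add]
      by_cases hb : b 0 = 0
      · rw [dotProduct_single, hb, zero_mul, AddChar.map_zero_eq_one, one_smul]
      · rw [hcon b hb, smul_zero]
    rw [sum_E ψ hψ R um um_add, mul_smul_comm, mul_one] at h2
    have h3 := card_ne_zero (K := K) (κ := Fin (r + 1)) (p := p) hp
    have h4 : (Fintype.card (Fin (r + 1) → K) : F') • (R (um (Pi.single 0 y)) - 1) = 0 := by
      rw [smul_sub, h2, sub_self]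
    exact sub_eq_zero.1 ((smul_eq_zero.1 h4).resolve_left h3)
  have h5 : R.ker = ⊤ := by
    refine normal_eq_top R.ker (i₀ := Sum.inr 0) (j₀ := Sum.inl ()) (by simp) fun y => ?_
    rw [MonoidHom.mem_ker, ← um_single, h1]
  obtain ⟨g, hg⟩ := hR
  apply hg
  have : g ∈ R.ker := by rw [h5]; trivial
  exact this

theorem sl_main (χ : AddChar (ZMod p) F') (hχ : χ ≠ 1) (hp : (p : F') ≠ 0)
    (τ : K →+ ZMod p) (hτ : τ ≠ 0) (R : SpecialLinearGroup (Ix r) K →* 𝓐) (hR : ∃ g, R g ≠ 1)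
    (θ : K) (m : ℕ)
    (hθ : ∀ Q : Polynomial k, Q ≠ 0 → Q.natDegree < m → Polynomial.aeval θ Q ≠ 0)
    (hm : 2 * (r + 2) * (r + 1) ≤ m)
    {ι : Type*} [Fintype ι] (c : ι → F') (h : ι → SpecialLinearGroup (Ix r) k) (i0 : ι)
    (h0 : h i0 = 1) (hns : ∀ i, i ≠ i0 → ∀ x : k, (h i : Matrix (Ix r) (Ix r) k) ≠ scalar _ x)
    (hrel : ∑ i, c i • R (SpecialLinearGroup.map (algebraMap k K) (h i)) = 0)
    (hcard : 96 * (r + 2) ^ 3 * (p ^ Fintype.card ι) ^ 4 < Fintype.card K) :
    c i0 = 0 := by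
  set ψ := χ.compAddMonoidHom τ with hψdef
  have hψ : ψ.IsPrimitive := char_primitive χ hχ τ hτ
  obtain ⟨b, hb0, hb⟩ := exists_E_zero_ne (r := r) ψ hψ hp R hR
  -- the target functional
  let u : Fin (r + 1) → K := fun i => θ ^ ((2 * (r + 2)) * (i : ℕ))
  let κ : Fin (r + 1) → K := fun j => u j - b j / b 0
  have hκ0 : κ 0 = 0 := by
    simp only [κ, u, Fin.val_zero, mul_zero, pow_zero]
    rw [div_self hb0, sub_self]
  let e := E ψ R um b * R (blk κ hκ0)
  have he : e ≠ 0 := by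
    intro h
    apply hb
    have : e * R ((blk κ hκ0)⁻¹) = E ψ R um b := by
      simp only [e]
      rw [mul_assoc, ← map_mul, mul_inv_cancel, map_one, mul_one]
    rw [← this, h, zero_mul]
  have he2 : ∀ w, e * R (um w) = ψ ((b 0 • u) ⬝ᵥ w) • e := by
    intro w
    simp only [e]
    rw [mul_assoc, ← map_mul, blk_mul_um, map_mul, ← mul_assoc, E_mul_R ψ R um um_add,
      smul_mul_assoc]
    congr 2
    rw [dotProduct_add, dotProduct_smul, dotProduct_single, mul_one, smul_eq_mul,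
      dotProduct, dotProduct, dotProduct, Finset.sum_mul, ← Finset.sum_add_distrib]
    refine Finset.sum_congr rfl fun i _ => ?_
    simp only [κ, Pi.smul_apply, smul_eq_mul]
    field_simp
    ring
  -- the conjugating element
  let v : Fin (r + 1) → K := fun i => θ ^ ((i : ℕ) + 1)
  let g : ι → SpecialLinearGroup (Ix r) K := fun i =>
    um (-v) * SpecialLinearGroup.map (algebraMap k K) (h i) * um v
  have hg1 : ∀ i, (g i : Matrix (Ix r) (Ix r) K) (Sum.inl ()) (Sum.inl ()) =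
      Polynomial.aeval θ (P (h i : Matrix (Ix r) (Ix r) k) (Sum.inl ())) := by
    intro i
    rw [aeval_P]
    exact conj_inl v _
  have hg2 : ∀ i j, (g i : Matrix (Ix r) (Ix r) K) (Sum.inr j) (Sum.inl ()) =
      Polynomial.aeval θ (P (h i : Matrix (Ix r) (Ix r) k) (Sum.inr j)) -
      θ ^ ((j : ℕ) + 1) *
        Polynomial.aeval θ (P (h i : Matrix (Ix r) (Ix r) k) (Sum.inl ())) := by
    intro i j
    rw [aeval_P, aeval_P]
    exact conj_inr v _ j
  have hg0 : ∀ i, (g i : Matrix (Ix r) (Ix r) K) (Sum.inl ()) (Sum.inl ()) ≠ 0 := by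
    intro i
    rw [hg1]
    apply hθ
    · apply P_ne_zero
      rw [(h i).2]
      exact one_ne_zero
    · refine lt_of_le_of_lt (P_natDegree _ _) (lt_of_lt_of_le ?_ hm)
      nlinarith
  have hgi0 : g i0 = 1 := by
    simp only [g]
    rw [h0, map_one, mul_one, um_neg, inv_mul_cancel]
  have hw0 : (fun j => (g i0 : Matrix (Ix r) (Ix r) K) (Sum.inr j) (Sum.inl ()) /
      (g i0 : Matrix (Ix r) (Ix r) K) (Sum.inl ()) (Sum.inl ())) = 0 := by
    funext j
    rw [hgi0]
    simp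
  have hφ0 : (fun j => (g i0 : Matrix (Ix r) (Ix r) K) (Sum.inl ()) (Sum.inr j) /
      (g i0 : Matrix (Ix r) (Ix r) K) (Sum.inl ()) (Sum.inl ())) = 0 := by
    funext j
    rw [hgi0]
    simp
  refine abstract_main χ hχ hp τ hτ R tor um up up_add (r + 2) (by omega) tor_um tor_up
    (b 0 • u) e he he2 c
    (fun i j => (g i : Matrix (Ix r) (Ix r) K) (Sum.inr j) (Sum.inl ()) /
      (g i : Matrix (Ix r) (Ix r) K) (Sum.inl ()) (Sum.inl ()))
    (fun i => lev (g i))
    (fun i j => (g i : Matrix (Ix r) (Ix r) K) (Sum.inl ()) (Sum.inr j) /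
      (g i : Matrix (Ix r) (Ix r) K) (Sum.inl ()) (Sum.inl ()))
    (fun i s => tor_comm s _ (lev_inl_inr _ (hg0 i)) (lev_inr_inl _ (hg0 i)))
    i0 hw0 ?_ hφ0 ?_ ?_ hcard
  · have e1 := ldu (g i0)
    rw [hw0, hφ0, um_zero, up_zero, one_mul, mul_one] at e1
    rw [← e1, hgi0]
  · intro i hi
    have e2 : (b 0 • u) ⬝ᵥ (fun j => (g i : Matrix (Ix r) (Ix r) K) (Sum.inr j) (Sum.inl ()) /
      (g i : Matrix (Ix r) (Ix r) K) (Sum.inl ()) (Sum.inl ())) =
      b 0 * (∑ j : Fin (r + 1), θ ^ ((2 * (r + 2)) * (j : ℕ)) *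
      (Polynomial.aeval θ (P (h i : Matrix (Ix r) (Ix r) k) (Sum.inr j)) - θ ^ ((j : ℕ) + 1) *
        Polynomial.aeval θ (P (h i : Matrix (Ix r) (Ix r) k) (Sum.inl ())))) /
        (g i : Matrix (Ix r) (Ix r) K) (Sum.inl ()) (Sum.inl ()) := by
      rw [dotProduct, Finset.mul_sum, Finset.sum_div]
      refine Finset.sum_congr rfl fun j _ => ?_
      rw [← hg2]
      simp only [Pi.smul_apply, smul_eq_mul, u]
      ring
    rw [e2]
    exact div_ne_zero (mul_ne_zero hb0 (aeval_ne_zero θ m hθ _ (hns i hi) hm)) (hg0 i)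
  · have e3 : ∑ i, c i • R (g i) = R (um (-v)) *
        (∑ i, c i • R (SpecialLinearGroup.map (algebraMap k K) (h i))) * R (um v) := by
      rw [Finset.mul_sum, Finset.sum_mul]
      refine Finset.sum_congr rfl fun i _ => ?_
      simp only [g]
      rw [map_mul, map_mul, mul_smul_comm, smul_mul_assoc]
    rw [hrel, mul_zero, zero_mul] at e3
    rw [← e3]
    refine Finset.sum_congr rfl fun i _ => ?_
    congr 2
    exact (ldu (g i)).symm

end main

end Pool.Agent.Lib.MP_467141_al
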