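import Pool.Agent.Lib.MP_467141_al.Reduction
import Pool.Agent.Lib.MP_467141_al.SLMain

/-!
# Type `A`
-/

namespace Pool.Agent.Lib.MP_467141_al

open Matrix

universe u v w

/-- reindexing `SL` along an equivalence of index sets -/
def reind {ι₁ ι₂ R : Type*} [Fintype ι₁] [DecidableEq ι₁] [Fintype ι₂] [DecidableEq ι₂]
    [CommRing R] (e : ι₁ ≃ ι₂) :
    Matrix.SpecialLinearGroup ι₂ R →* Matrix.SpecialLinearGroup ι₁ R where
  toFun g := ⟨(g : Matrix ι₂ ι₂ R).submatrix e e, by rw [det_submatrix_equiv_self]; exact g.2⟩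
  map_one' := by
    apply Subtype.ext
    simp
  map_mul' a b := by
    apply Subtype.ext
    change (a * b : Matrix ι₂ ι₂ R).submatrix e e =
      (a : Matrix ι₂ ι₂ R).submatrix e e * (b : Matrix ι₂ ι₂ R).submatrix e e
    rw [submatrix_mul_equiv]

lemma reind_apply {ι₁ ι₂ R : Type*} [Fintype ι₁] [DecidableEq ι₁] [Fintype ι₂] [DecidableEq ι₂]
    [CommRing R] (e : ι₁ ≃ ι₂) (g : Matrix.SpecialLinearGroup ι₂ R) (i j : ι₁) :
    (reind e g : Matrix ι₁ ι₁ R) i j = g (e i) (e j) := rfl

/-- facts about the extension `K / k` used in the proof -/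
lemma ext_facts (k K : Type*) [Field k] [Fintype k] [Field K] [Algebra k K] (m : ℕ)
    (hm1 : 1 ≤ m) (hm : Module.finrank k K = m) :
    (∃ _ : Fintype K, Fintype.card K = Fintype.card k ^ m) ∧
    ∃ θ : K, ∀ Q : Polynomial k, Q ≠ 0 → Q.natDegree < m → Polynomial.aeval θ Q ≠ 0 := by
  have hfd : FiniteDimensional k K := Module.finite_of_finrank_pos (by omega)
  have hfin : Finite K := Module.finite_of_finite k
  constructor
  · have inst : Fintype K := Fintype.ofFinite K
    refine ⟨inst, ?_⟩
    rw [Module.card_eq_pow_finrank (K := k) (V := K), hm]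
  · obtain ⟨θ, hθ⟩ := Field.exists_primitive_element k K
    refine ⟨θ, fun Q hQ hdeg h0 => ?_⟩
    have h1 := (Field.primitive_element_iff_minpoly_natDegree_eq k θ).1 hθ
    have h2 := minpoly.degree_le_of_ne_zero k θ hQ h0
    have h3 := Polynomial.natDegree_le_natDegree h2
    omega

lemma center_of_scalar {ι R : Type*} [Fintype ι] [DecidableEq ι] [CommRing R]
    (y : Matrix.SpecialLinearGroup ι R) (x : R) (h : (y : Matrix ι ι R) = scalar ι x) :
    y ∈ Subgroup.center (Matrix.SpecialLinearGroup ι R) := by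
  rw [Matrix.SpecialLinearGroup.mem_center_iff]
  refine ⟨x, ?_, h.symm⟩
  have h1 : (y : Matrix ι ι R).det = 1 := y.2
  rw [h, scalar_apply, det_diagonal, Finset.prod_const, Finset.card_univ] at h1
  exact h1

lemma exists_functional (p : ℕ) [Fact p.Prime] (K : Type*) [Field K] [Algebra (ZMod p) K] :
    ∃ τ : K →+ ZMod p, τ ≠ 0 := by
  by_contra hcon
  push Not at hcon
  have : (1 : K) = 0 := by
    rw [← Module.forall_dual_apply_eq_zero_iff (ZMod p)]
    intro φ
    have := hcon φ.toAddMonoidHom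
    exact DFunLike.congr_fun this 1
  exact one_ne_zero this

theorem typeA (n : ℕ) (hn : 2 ≤ n) (k : Type*) [Field k] [Finite k] :
    ∃ m : ℕ, 1 ≤ m ∧ ∀ (K : Type*) [Field K] [Algebra k K], Module.finrank k K = m →
      ∀ (F : Type u) [Field F], ringChar F ≠ ringChar k →
      ∀ (V : Type v) [AddCommGroup V] [Module F V] [FiniteDimensional F V]
        (ρ : Representation F (ProjectiveSpecialLinearGroup (Fin n) K) V),
        ρ.IsIrreducible → 1 < Module.finrank F V →
      ∀ (W : Type w) [AddCommGroup W] [Module F W]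
        (σ : Representation F (ProjectiveSpecialLinearGroup (Fin n) k) W),
        σ.IsIrreducible → IsCompositionFactor (ρ.comp (pslMap n k K)) σ := by
  classical
  obtain ⟨r, rfl⟩ : ∃ r, n = r + 2 := ⟨n - 2, by omega⟩
  have instk : Fintype k := Fintype.ofFinite k
  let p := ringChar k
  have hcp : CharP k p := ringChar.charP k
  have hp : Fact p.Prime := ⟨CharP.char_is_prime k p⟩
  have instH : Fintype (ProjectiveSpecialLinearGroup (Fin (r + 2)) k) :=
    Fintype.ofFinite _
  let N := Fintype.card (ProjectiveSpecialLinearGroup (Fin (r + 2)) k)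
  refine ⟨4 * N + 96 * (r + 2) ^ 3 + 2 * (r + 2) * (r + 1), by
    have : 0 < (r + 2) ^ 3 := by positivity
    omega, ?_⟩
  intro K _ _ hfin F _ hFk V _ _ _ ρ hρ hd W _ _ σ hσ
  obtain ⟨⟨instK, hcardK⟩, θ, hθ⟩ := ext_facts k K _ (by
    have : 0 < (r + 2) ^ 3 := by positivity
    omega) hfin
  have hcpK : CharP K p := charP_of_injective_algebraMap (algebraMap k K).injective p
  let _ : Algebra (ZMod p) K := ZMod.algebra K p
  obtain ⟨τ, hτ⟩ := exists_functional p K
  have hF : (p : F) ≠ 0 := by
    intro h0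
    have h1 : ringChar F ∣ p := (ringChar.spec F p).1 h0
    rcases (Nat.dvd_prime hp.1).1 h1 with h2 | h2
    · exact CharP.ringChar_ne_one h2
    · exact hFk h2
  refine reduction (pslMap (r + 2) k K) p hF ρ hρ hd ?_ σ hσ
  intro F' _ 𝓐 _ _ χ hχ hp' R hR c hsum
  let e : Fin (r + 2) ≃ Ix r := (finSuccEquiv (r + 1)).trans
    ((Equiv.optionEquivSumPUnit (Fin (r + 1))).trans (Equiv.sumComm _ _))
  let pr : Matrix.SpecialLinearGroup (Fin (r + 2)) K →*
      ProjectiveSpecialLinearGroup (Fin (r + 2)) K := QuotientGroup.mk' _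
  let R' : Matrix.SpecialLinearGroup (Ix r) K →* 𝓐 := (R.comp pr).comp (reind e)
  have hR' : ∃ g, R' g ≠ 1 := by
    obtain ⟨g, hg⟩ := hR
    obtain ⟨y, rfl⟩ := QuotientGroup.mk'_surjective _ g
    refine ⟨reind e.symm y, ?_⟩
    have h1 : reind e (reind e.symm y) = y := by
      apply Subtype.ext
      ext i j
      change (y : Matrix _ _ K) (e.symm (e i)) (e.symm (e j)) = _
      simp
    change R (pr (reind e (reind e.symm y))) ≠ 1
    rw [h1]
    exact hg
  let lift : ProjectiveSpecialLinearGroup (Fin (r + 2)) k →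
      Matrix.SpecialLinearGroup (Fin (r + 2)) k := fun x => if x = 1 then 1 else Quotient.out x
  have hlift : ∀ x, (QuotientGroup.mk (lift x) :
      ProjectiveSpecialLinearGroup (Fin (r + 2)) k) = x := by
    intro x
    simp only [lift]
    split_ifs with h
    · rw [h]; rfl
    · exact Quotient.out_eq x
  let h : ProjectiveSpecialLinearGroup (Fin (r + 2)) k → Matrix.SpecialLinearGroup (Ix r) k :=
    fun x => reind e.symm (lift x)
  refine sl_main χ hχ hp' τ hτ R' hR' θ _ hθ (by omega) c h 1 ?_ ?_ ?_ ?_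
  · simp only [h, lift, if_true]
    exact map_one _
  · intro x hx a ha
    apply hx
    have h1 : lift x ∈ Subgroup.center (Matrix.SpecialLinearGroup (Fin (r + 2)) k) := by
      apply center_of_scalar _ a
      ext i j
      have h2 : (h x : Matrix (Ix r) (Ix r) k) (e i) (e j) =
          (lift x : Matrix (Fin (r + 2)) (Fin (r + 2)) k) i j := by
        change (lift x : Matrix _ _ k) (e.symm (e i)) (e.symm (e j)) = _
        simp
      rw [← h2, ha]
      simp [Matrix.diagonal_apply]
    rw [← hlift x]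
    exact (QuotientGroup.eq_one_iff _).2 h1
  · rw [← hsum]
    refine Finset.sum_congr rfl fun x _ => ?_
    congr 1
    have h1 : reind e (Matrix.SpecialLinearGroup.map (algebraMap k K) (h x)) =
        Matrix.SpecialLinearGroup.map (algebraMap k K) (lift x) := by
      apply Subtype.ext
      ext i j
      change algebraMap k K ((lift x : Matrix _ _ k) (e.symm (e i)) (e.symm (e j))) =
        algebraMap k K ((lift x : Matrix _ _ k) i j)
      simp
    have h2 : pslMap (r + 2) k K x =
        pr (Matrix.SpecialLinearGroup.map (algebraMap k K) (lift x)) := by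
      conv_lhs => rw [← hlift x]
      rfl
    change R (pr (reind e (Matrix.SpecialLinearGroup.map (algebraMap k K) (h x)))) = _
    rw [h1, h2]
  · rw [hcardK]
    have hpk : p ≤ Fintype.card k := by
      obtain ⟨a, ha⟩ := FiniteField.card k p
      rw [ha.2]
      exact Nat.le_self_pow a.2.ne' p
    have h2k : 2 ≤ Fintype.card k := Fintype.one_lt_card
    have h1 : 96 * (r + 2) ^ 3 < Fintype.card k ^ (96 * (r + 2) ^ 3) :=
      lt_of_lt_of_le (Nat.lt_two_pow_self) (Nat.pow_le_pow_left h2k _)
    have h2 : (p ^ N) ^ 4 ≤ Fintype.card k ^ (4 * N) := by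
      rw [← pow_mul, mul_comm N 4]
      exact Nat.pow_le_pow_left hpk _
    have h3 : 1 ≤ Fintype.card k ^ (2 * (r + 2) * (r + 1)) := Nat.one_le_pow _ _ (by omega)
    calc 96 * (r + 2) ^ 3 * (p ^ N) ^ 4
        ≤ 96 * (r + 2) ^ 3 * Fintype.card k ^ (4 * N) := Nat.mul_le_mul_left _ h2
      _ < Fintype.card k ^ (96 * (r + 2) ^ 3) * Fintype.card k ^ (4 * N) :=
          Nat.mul_lt_mul_of_pos_right h1 (by positivity)
      _ ≤ Fintype.card k ^ (96 * (r + 2) ^ 3) * Fintype.card k ^ (4 * N) *
          Fintype.card k ^ (2 * (r + 2) * (r + 1)) := Nat.le_mul_of_pos_right _ h3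
      _ = Fintype.card k ^ (4 * N + 96 * (r + 2) ^ 3 + 2 * (r + 2) * (r + 1)) := by
          rw [pow_add, pow_add]
          ring

end Pool.Agent.Lib.MP_467141_al
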